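import Mathlib

/-
Asymptotics of the number of orbits of S Wr S_2 (product action on pairs) on n-element sets.
-/

namespace Pool.Agent.Results.MP_cfcaf3_co.WreathOrbitAsymptotics

open Finset Filter Topology Relation

/-- f_n(G): the number of orbits of the permutation group G on the n-element subsets of X.
Two n-element subsets s, t are identified when t is the image of s under some element of G. -/
noncomputable def orbitCount {X : Type*} (G : Subgroup (Equiv.Perm X)) (n : ℕ) : ℕ :=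
  Nat.card (Quot (fun s t : {s : Finset X // s.card = n} => ∃ π ∈ G, t.1 = s.1.map π.toEmbedding))

/-- The group S Wr S_2 in its product action on pairs, as a group of permutations of Ω × Ω:
the elements of the base group are (α, β) ↦ (g α, h β), the remaining ones are
(α, β) ↦ (g β, h α), with g, h arbitrary permutations of Ω. -/
def wreathS2 (Ω : Type*) : Subgroup (Equiv.Perm (Ω × Ω)) where
  carrier := {π | ∃ g h : Equiv.Perm Ω, (∀ x : Ω × Ω, π x = (g x.1, h x.2)) ∨ (∀ x : Ω × Ω, π x = (g x.2, h x.1))}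
  one_mem' := ⟨1, 1, Or.inl fun _ => rfl⟩
  mul_mem' := by
    rintro π ρ ⟨g, h, hπ⟩ ⟨g', h', hρ⟩
    rcases hπ with hπ | hπ <;> rcases hρ with hρ | hρ
    · exact ⟨g * g', h * h', Or.inl fun x => by rw [Equiv.Perm.mul_apply, hρ, hπ]; rfl⟩
    · exact ⟨g * g', h * h', Or.inr fun x => by rw [Equiv.Perm.mul_apply, hρ, hπ]; rfl⟩
    · exact ⟨g * h', h * g', Or.inr fun x => by rw [Equiv.Perm.mul_apply, hρ, hπ]; rfl⟩
    · exact ⟨g * h', h * g', Or.inl fun x => by rw [Equiv.Perm.mul_apply, hρ, hπ]; rfl⟩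
  inv_mem' := by
    rintro π ⟨g, h, hπ | hπ⟩
    · refine ⟨g⁻¹, h⁻¹, Or.inl fun x => ?_⟩
      rw [Equiv.Perm.inv_eq_iff_eq, hπ]
      simp
    · refine ⟨h⁻¹, g⁻¹, Or.inr fun x => ?_⟩
      rw [Equiv.Perm.inv_eq_iff_eq, hπ]
      simp

/-- The Lambert W function on the nonnegative reals. -/
noncomputable def lambertW (x : ℝ) : ℝ := sSup {t : ℝ | 0 ≤ t ∧ t * Real.exp t ≤ x}

/-- pairs of equivalence relations with trivial meet -/
def PP (α : Type) : Type := {x : Setoid α × Setoid α // ∀ i j, x.1 i j → x.2 i j → i = j}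

instance finSetoid (α : Type) [Finite α] : Finite (Setoid α) := by
  apply Finite.of_injective (fun r : Setoid α => fun a b : α => r a b)
  intro r s h
  ext a b
  exact iff_of_eq (congrFun (congrFun h a) b)

instance (α : Type) [Finite α] : Finite (PP α) := by unfold PP; infer_instance

noncomputable def D (n : ℕ) : ℕ := Nat.card (PP (Fin n))

def Setoid.mapE {α β : Type} (e : α ≃ β) (r : Setoid α) : Setoid β := r.comap e.symm

def PP.congr {α β : Type} (e : α ≃ β) : PP α ≃ PP β where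
  toFun x := ⟨(x.1.1.comap e.symm, x.1.2.comap e.symm), fun i j h1 h2 =>
    e.symm.injective (x.2 _ _ h1 h2)⟩
  invFun x := ⟨(x.1.1.comap e, x.1.2.comap e), fun i j h1 h2 => e.injective (x.2 _ _ h1 h2)⟩
  left_inv x := by
    apply Subtype.ext
    apply Prod.ext
    · ext i j; simp [Setoid.comap_rel]
    · ext i j; simp [Setoid.comap_rel]
  right_inv x := by
    apply Subtype.ext
    apply Prod.ext
    · ext i j; simp [Setoid.comap_rel]
    · ext i j; simp [Setoid.comap_rel]

theorem card_PP (α : Type) [Fintype α] : Nat.card (PP α) = D (Fintype.card α) := by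
  unfold D
  exact Nat.card_congr (PP.congr (Fintype.equivFin α))

/-- functions with given kernel are embeddings of the quotient -/
def kerEquiv {α β : Type} (r : Setoid α) : {f : α → β // Setoid.ker f = r} ≃ (Quotient r ↪ β) where
  toFun f := ⟨Quotient.lift f.1 (fun a b h => by
      have : (Setoid.ker f.1) a b := by rw [f.2]; exact h
      exact this), by
      intro a b
      induction a using Quotient.inductionOn
      induction b using Quotient.inductionOn
      rename_i a b
      intro h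
      apply Quotient.sound
      have : (Setoid.ker f.1) a b := h
      rw [f.2] at this
      exact this⟩
  invFun g := ⟨fun a => g (Quotient.mk r a), by
    ext a b
    rw [Setoid.ker_def]
    constructor
    · intro h
      exact Quotient.exact (g.injective h)
    · intro h
      rw [Quotient.sound h]⟩
  left_inv f := by
    apply Subtype.ext
    rfl
  right_inv g := by
    ext a
    induction a using Quotient.inductionOn
    rfl

theorem card_ker {α : Type} [Fintype α] (r : Setoid α) (a : ℕ) :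
    Nat.card {f : α → Fin a // Setoid.ker f = r} = a.descFactorial (Nat.card (Quotient r)) := by
  classical
  rw [Nat.card_congr (kerEquiv r)]
  have : Fintype (Quotient r) := Fintype.ofFinite _
  rw [Nat.card_eq_fintype_card, Fintype.card_embedding_eq, Fintype.card_fin, Nat.card_eq_fintype_card]

theorem count (n a b : ℕ) : (a * b).descFactorial n = ∑ᶠ x : PP (Fin n),
    a.descFactorial (Nat.card (Quotient x.1.1)) * b.descFactorial (Nat.card (Quotient x.1.2)) := by
  classical
  have : Fintype (PP (Fin n)) := Fintype.ofFinite _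
  rw [finsum_eq_sum_of_fintype]
  have h1 : (a * b).descFactorial n = Nat.card (Fin n ↪ Fin a × Fin b) := by
    rw [Nat.card_eq_fintype_card, Fintype.card_embedding_eq, Fintype.card_prod, Fintype.card_fin, Fintype.card_fin,
      Fintype.card_fin]
  rw [h1]
  have e : (Fin n ↪ Fin a × Fin b) ≃ Σ x : PP (Fin n),
      ({f : Fin n → Fin a // Setoid.ker f = x.1.1} × {g : Fin n → Fin b // Setoid.ker g = x.1.2}) :=
    { toFun := fun φ => ⟨⟨(Setoid.ker (fun i => (φ i).1), Setoid.ker (fun i => (φ i).2)), fun i j h1 h2 =>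
        φ.injective (Prod.ext h1 h2)⟩, (⟨fun i => (φ i).1, rfl⟩, ⟨fun i => (φ i).2, rfl⟩)⟩
      invFun := fun y => ⟨fun i => (y.2.1.1 i, y.2.2.1 i), fun i j h => by
        simp only [Prod.mk.injEq] at h
        apply y.1.2 i j
        · rw [← y.2.1.2]; exact h.1
        · rw [← y.2.2.2]; exact h.2⟩
      left_inv := fun φ => by ext i <;> rfl
      right_inv := fun y => by
        obtain ⟨⟨⟨r, s⟩, hx⟩, ⟨f, hf⟩, ⟨g, hg⟩⟩ := y
        simp only at hf hg
        subst hf hg
        rfl }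
  rw [Nat.card_congr e, Nat.card_sigma]
  apply Finset.sum_congr rfl
  intro x _
  rw [Nat.card_prod, card_ker, card_ker]

theorem hasSum_desc (k : ℕ) : HasSum (fun a : ℕ => (a.descFactorial k : ℝ) / (a.factorial : ℝ)) (Real.exp 1) := by
  have h : HasSum (fun n : ℕ => (1:ℝ)^n / (n.factorial : ℝ)) (Real.exp 1) := by
    rw [Real.exp_eq_exp_ℝ]
    exact NormedSpace.expSeries_div_hasSum_exp (1:ℝ)
  simp only [one_pow] at h
  have hinj : Function.Injective (fun j : ℕ => j + k) := fun a b h => by simpa using h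
  rw [← hinj.hasSum_iff]
  · convert h using 1
    ext j
    simp only [Function.comp]
    have h1 := Nat.factorial_mul_descFactorial (show k ≤ j + k by omega)
    rw [Nat.add_sub_cancel] at h1
    have h2 : ((j + k).factorial : ℝ) = (j.factorial : ℝ) * ((j+k).descFactorial k : ℝ) := by exact_mod_cast h1.symm
    rw [h2]
    have h3 : (0:ℝ) < ((j+k).descFactorial k : ℝ) := by
      have : 0 < (j+k).descFactorial k := Nat.descFactorial_pos.2 (by omega)
      exact_mod_cast this
    have h4 : (0:ℝ) < (j.factorial : ℝ) := by positivity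
    field_simp
  · intro x hx
    have : x < k := by
      by_contra hk
      exact hx ⟨x - k, by simp; omega⟩
    rw [Nat.descFactorial_eq_zero_iff_lt.2 this]
    simp

/-- weights -/
noncomputable def wt (n : ℕ) (x : ℕ × ℕ) : ℝ :=
  ((x.1 * x.2).descFactorial n : ℝ) / ((x.1.factorial : ℝ) * (x.2.factorial : ℝ))

theorem wt_nonneg (n : ℕ) (x : ℕ × ℕ) : 0 ≤ wt n x := by unfold wt; positivity

theorem hasSum_D (n : ℕ) : HasSum (wt n) (Real.exp 2 * (D n : ℝ)) := by
  classical
  have : Fintype (PP (Fin n)) := Fintype.ofFinite _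
  have h1 : ∀ x : PP (Fin n), HasSum (fun y : ℕ × ℕ =>
      ((y.1.descFactorial (Nat.card (Quotient x.1.1)) : ℝ) / (y.1.factorial : ℝ)) *
      ((y.2.descFactorial (Nat.card (Quotient x.1.2)) : ℝ) / (y.2.factorial : ℝ))) (Real.exp 1 * Real.exp 1) := by
    intro x
    have ha := hasSum_desc (Nat.card (Quotient x.1.1))
    have hb := hasSum_desc (Nat.card (Quotient x.1.2))
    exact ha.mul hb (ha.summable.mul_of_nonneg hb.summable (fun a => by simp only [Pi.zero_apply]; positivity)
      (fun a => by simp only [Pi.zero_apply]; positivity))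
  have h2 := hasSum_sum (s := (univ : Finset (PP (Fin n)))) (fun x _ => h1 x)
  rw [Finset.sum_const, Finset.card_univ, nsmul_eq_mul] at h2
  convert h2 using 1
  · ext y
    unfold wt
    rw [count, finsum_eq_sum_of_fintype]
    push_cast
    rw [Finset.sum_div]
    apply Finset.sum_congr rfl
    intro x _
    rw [mul_div_mul_comm]
  · unfold D
    rw [Nat.card_eq_fintype_card, ← Real.exp_add]
    norm_num
    ring

theorem card_setoid_le (n : ℕ) : Nat.card (Setoid (Fin n)) ≤ n^n := by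
  have h : n^n = Nat.card (Fin n → Fin n) := by
    rw [Nat.card_eq_fintype_card, Fintype.card_fun, Fintype.card_fin]
  rw [h]
  apply Nat.card_le_card_of_injective (fun r : Setoid (Fin n) => fun i => (Quotient.mk r i).out)
  intro r s hrs
  have key : ∀ (r : Setoid (Fin n)) (i j : Fin n), r i j ↔ (Quotient.mk r i).out = (Quotient.mk r j).out := by
    intro r i j
    constructor
    · intro h
      rw [Quotient.sound h]
    · intro h
      have := congrArg (Quotient.mk r) h
      rw [Quotient.out_eq, Quotient.out_eq] at this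
      exact Quotient.exact this
  ext i j
  rw [key r, key s]
  have h1 := congrFun hrs i
  have h2 := congrFun hrs j
  simp only at h1 h2
  rw [h1, h2]

theorem D_le (n : ℕ) : D n ≤ n^(2*n) := by
  unfold D
  have h1 : Nat.card (PP (Fin n)) ≤ Nat.card (Setoid (Fin n) × Setoid (Fin n)) :=
    Nat.card_le_card_of_injective _ Subtype.val_injective
  rw [Nat.card_prod] at h1
  refine h1.trans ((Nat.mul_le_mul (card_setoid_le n) (card_setoid_le n)).trans (le_of_eq ?_))
  rw [← pow_add]; congr 1; ring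

theorem D_zero : D 0 = 1 := by
  unfold D
  rw [Nat.card_eq_one_iff_unique]
  refine ⟨⟨fun x y => ?_⟩, ⟨⟨(⊥, ⊥), fun i => i.elim0⟩⟩⟩
  apply Subtype.ext
  apply Prod.ext
  · ext i; exact i.elim0
  · ext i; exact i.elim0

theorem wt_le_D (n : ℕ) (x : ℕ × ℕ) : wt n x ≤ Real.exp 2 * (D n : ℝ) :=
  le_hasSum (hasSum_D n) x (fun _ _ => wt_nonneg n _)

/-- log form of the lower bound -/
theorem D_lower : ∀ᶠ n : ℕ in atTop, (n:ℝ)^((15/8:ℝ) * n) ≤ (D n : ℝ) := by
  have e1 : ∀ᶠ n : ℕ in atTop, (n:ℝ)^(-(1/32:ℝ)) < 1/256 := by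
    have : Tendsto (fun n : ℕ => (n:ℝ)^(-(1/32:ℝ))) atTop (𝓝 0) :=
      (tendsto_rpow_neg_atTop (by norm_num)).comp tendsto_natCast_atTop_atTop
    exact this.eventually (gt_mem_nhds (by norm_num))
  have e2 : ∀ᶠ n : ℕ in atTop, (64:ℝ) ≤ Real.log n :=
    (Real.tendsto_log_atTop.comp tendsto_natCast_atTop_atTop).eventually_ge_atTop 64
  have e3 : ∀ᶠ n : ℕ in atTop, (n:ℝ)^(-(15/16:ℝ)) < 1/2 := by
    have : Tendsto (fun n : ℕ => (n:ℝ)^(-(15/16:ℝ))) atTop (𝓝 0) :=
      (tendsto_rpow_neg_atTop (by norm_num)).comp tendsto_natCast_atTop_atTop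
    exact this.eventually (gt_mem_nhds (by norm_num))
  filter_upwards [e1, e2, e3, eventually_ge_atTop 2] with n h1 h2 h3 h4
  have hn : (2:ℝ) ≤ n := by exact_mod_cast h4
  have hn0 : (0:ℝ) < n := by linarith
  set y : ℝ := (n:ℝ)^(31/32:ℝ) with hy
  have hy1 : 1 ≤ y := Real.one_le_rpow (by linarith) (by norm_num)
  set A : ℕ := ⌈y⌉₊ with hA
  have hA1 : y ≤ A := Nat.le_ceil y
  have hA2 : (A:ℝ) ≤ 2 * y := by
    have := Nat.ceil_lt_add_one (show 0 ≤ y by linarith)
    linarith
  have hyn : y = n * (n:ℝ)^(-(1/32:ℝ)) := by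
    rw [hy]
    nth_rw 2 [← Real.rpow_one (n:ℝ)]
    rw [← Real.rpow_add hn0]; norm_num
  have hA3 : (A:ℝ) ≤ n := by
    rw [hyn] at hA2
    nlinarith
  have hA0 : 0 < A := by
    have : (0:ℝ) < A := by linarith
    exact_mod_cast this
  -- A^2 - n ≥ n^(31/16)/2
  have hAA : (n:ℝ)^(31/16:ℝ)/2 ≤ (A:ℝ) * A - n := by
    have a1 : (n:ℝ)^(31/16:ℝ) = y * y := by
      rw [hy, ← Real.rpow_add hn0]; norm_num
    have a2 : (n:ℝ) ≤ (n:ℝ)^(31/16:ℝ)/2 := by
      have : (n:ℝ) = (n:ℝ)^(31/16:ℝ) * (n:ℝ)^(-(15/16:ℝ)) := by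
        rw [← Real.rpow_add hn0]; norm_num
      have hp : 0 < (n:ℝ)^(31/16:ℝ) := by positivity
      nlinarith
    nlinarith
  have hdesc : ((n:ℝ)^(31/16:ℝ)/2)^n ≤ ((A*A).descFactorial n : ℝ) := by
    have b1 := Nat.pow_sub_le_descFactorial (A*A) n
    have b2 : ((A*A + 1 - n : ℕ) : ℝ)^n ≤ ((A*A).descFactorial n : ℝ) := by exact_mod_cast b1
    refine le_trans (pow_le_pow_left₀ (by positivity) ?_ n) b2
    have hle : n ≤ A * A + 1 := by
      have : (n:ℝ) ≤ A * A + 1 := by
        have : 0 < (n:ℝ)^(31/16:ℝ) := by positivity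
        linarith
      exact_mod_cast this
    rw [Nat.cast_sub hle]
    push_cast
    linarith
  have hfact : ((A.factorial : ℝ)) ≤ (n:ℝ)^((A:ℝ)) := by
    rw [Real.rpow_natCast]
    have : A.factorial ≤ A^A := Nat.factorial_le_pow A
    calc (A.factorial : ℝ) ≤ (A:ℝ)^A := by exact_mod_cast this
      _ ≤ (n:ℝ)^A := pow_le_pow_left₀ (by positivity) hA3 A
  have hw := wt_le_D n (A, A)
  unfold wt at hw
  simp only at hw
  rw [div_le_iff₀ (by positivity)] at hw
  have hD : ((n:ℝ)^(31/16:ℝ)/2)^n ≤ Real.exp 2 * (D n : ℝ) * ((n:ℝ)^((A:ℝ)) * (n:ℝ)^((A:ℝ))) := by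
    refine hdesc.trans (hw.trans ?_)
    apply mul_le_mul_of_nonneg_left _ (by positivity)
    exact mul_le_mul hfact hfact (by positivity) (by positivity)
  have hDpos : 0 < (D n : ℝ) := by
    by_contra hneg
    push Not at hneg
    have : (0:ℝ) < ((n:ℝ)^(31/16:ℝ)/2)^n := by positivity
    have h5 : Real.exp 2 * (D n : ℝ) * ((n:ℝ)^((A:ℝ)) * (n:ℝ)^((A:ℝ))) ≤ 0 := by
      apply mul_nonpos_of_nonpos_of_nonneg _ (by positivity)
      exact mul_nonpos_of_nonneg_of_nonpos (Real.exp_pos _).le hneg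
    linarith
  rw [← Real.log_le_log_iff (by positivity) hDpos]
  have hlog := Real.log_le_log (by positivity) hD
  rw [Real.log_mul (by positivity) (by positivity), Real.log_mul (by positivity) (by positivity),
    Real.log_mul (by positivity) (by positivity), Real.log_exp, Real.log_pow, Real.log_div (by positivity) (by norm_num),
    Real.log_rpow hn0, Real.log_rpow hn0] at hlog
  rw [Real.log_rpow hn0]
  have hl2 : Real.log 2 < 1 := by
    have := Real.log_two_lt_d9; linarith
  set ℓ : ℝ := Real.log n with hℓ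
  have hAℓ : (A:ℝ) * ℓ ≤ n * ℓ / 128 := by
    have : (A:ℝ) ≤ n / 128 := by
      rw [hyn] at hA2
      have : n * (n:ℝ)^(-(1/32:ℝ)) ≤ n * (1/256) := mul_le_mul_of_nonneg_left h1.le hn0.le
      linarith
    have := mul_le_mul_of_nonneg_right this (show 0 ≤ ℓ by linarith)
    linarith
  have hnℓ : (n:ℝ) * 64 ≤ n * ℓ := mul_le_mul_of_nonneg_left h2 hn0.le
  have hnl2 : (n:ℝ) * Real.log 2 ≤ n := by nlinarith
  nlinarith

theorem D_pos' : ∀ᶠ n : ℕ in atTop, (0:ℝ) < (D n : ℝ) := by
  filter_upwards [D_lower, eventually_ge_atTop 1] with n h1 h2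
  have : (0:ℝ) < n := by exact_mod_cast h2
  exact lt_of_lt_of_le (by positivity) h1

theorem D_step0 (m : ℕ) (s : ℝ) (hs : (m:ℝ) ≤ s) : (s - m) * ((D m : ℝ) - s^m) ≤ (D (m+1) : ℝ) := by
  have h0 := hasSum_D 0
  rw [D_zero, Nat.cast_one, mul_one] at h0
  have hm := hasSum_D m
  have hm1 := hasSum_D (m+1)
  have h1 := (hm.sub (h0.mul_left (s^m))).mul_left (s - m)
  have hle := hasSum_le (fun x => ?_) h1 hm1
  · have he : (0:ℝ) < Real.exp 2 := Real.exp_pos _
    have : Real.exp 2 * ((s - m) * ((D m : ℝ) - s^m)) ≤ Real.exp 2 * (D (m+1) : ℝ) := by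
      refine le_trans (le_of_eq ?_) hle
      ring
    exact le_of_mul_le_mul_left this he
  · have hf : (0:ℝ) < (x.1.factorial : ℝ) * (x.2.factorial : ℝ) := by positivity
    have hsm : 0 ≤ s - m := by linarith
    by_cases hx : s ≤ (x.1:ℝ) * x.2
    · have a1 : wt (m+1) x = ((x.1 * x.2 - m : ℕ) : ℝ) * wt m x := by
        unfold wt
        rw [Nat.descFactorial_succ]
        push_cast
        ring
      have a2 : (m:ℝ) ≤ ((x.1 * x.2 : ℕ) : ℝ) := by push_cast; linarith
      have a3 : m ≤ x.1 * x.2 := by exact_mod_cast a2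
      rw [a1, Nat.cast_sub a3]
      push_cast
      have hw := wt_nonneg m x
      have hw0 := wt_nonneg 0 x
      have hs0 : 0 ≤ s^m := by
        have : 0 ≤ s := le_trans (by positivity) hs
        positivity
      calc (s - m) * (wt m x - s^m * wt 0 x) ≤ (s - m) * wt m x := by
            apply mul_le_mul_of_nonneg_left _ hsm
            have : 0 ≤ s^m * wt 0 x := by positivity
            linarith
        _ ≤ ((x.1:ℝ) * x.2 - m) * wt m x := mul_le_mul_of_nonneg_right (by linarith) hw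
    · push Not at hx
      have a1 : wt m x ≤ s^m * wt 0 x := by
        unfold wt
        rw [Nat.descFactorial_zero, mul_div_assoc']
        apply div_le_div_of_nonneg_right _ hf.le
        rw [Nat.cast_one, mul_one]
        calc (((x.1 * x.2).descFactorial m : ℕ) : ℝ) ≤ ((x.1 * x.2 : ℕ) : ℝ)^m := by
              exact_mod_cast Nat.descFactorial_le_pow _ _
          _ ≤ s^m := by
              apply pow_le_pow_left₀ (by positivity)
              push_cast
              exact hx.le
      have a2 : (s - m) * (wt m x - s^m * wt 0 x) ≤ 0 :=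
        mul_nonpos_of_nonneg_of_nonpos hsm (by linarith)
      exact a2.trans (wt_nonneg _ _)

theorem D_step : ∀ᶠ m : ℕ in atTop, (m:ℝ)^(7/4:ℝ) * (D m : ℝ) ≤ (D (m+1) : ℝ) := by
  have e1 : ∀ᶠ m : ℕ in atTop, (4:ℝ) ≤ (m:ℝ)^(1/16:ℝ) := by
    have : Tendsto (fun n : ℕ => (n:ℝ)^((1/16:ℝ))) atTop atTop :=
      (tendsto_rpow_atTop (by norm_num)).comp tendsto_natCast_atTop_atTop
    exact this.eventually_ge_atTop 4
  filter_upwards [D_lower, e1, eventually_ge_atTop 2] with m hD h1 h2
  have hm : (2:ℝ) ≤ m := by exact_mod_cast h2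
  have hm0 : (0:ℝ) < m := by linarith
  set s : ℝ := (m:ℝ)^(29/16:ℝ) with hs
  have hs1 : 2 * (m:ℝ) ≤ s := by
    have : s = (m:ℝ) * (m:ℝ)^(1/16:ℝ) * (m:ℝ)^(3/4:ℝ) := by
      rw [hs]
      nth_rw 2 [← Real.rpow_one (m:ℝ)]
      rw [← Real.rpow_add hm0, ← Real.rpow_add hm0]; norm_num
    rw [this]
    have h34 : (1:ℝ) ≤ (m:ℝ)^(3/4:ℝ) := Real.one_le_rpow (by linarith) (by norm_num)
    have h5 := mul_le_mul (mul_le_mul_of_nonneg_left h1 hm0.le) h34 (by norm_num) (by positivity)
    linarith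
  have hst := D_step0 m s (by linarith)
  have hsm : s^m ≤ (D m : ℝ)/2 := by
    have a1 : s^m * 2 ≤ (m:ℝ)^((15/8:ℝ) * m) := by
      have b1 : s^m = (m:ℝ)^((29/16:ℝ) * m) := by
        rw [hs, ← Real.rpow_natCast, ← Real.rpow_mul hm0.le]
      have b2 : (m:ℝ)^((15/8:ℝ) * m) = (m:ℝ)^((29/16:ℝ) * m) * (m:ℝ)^((1/16:ℝ) * m) := by
        rw [← Real.rpow_add hm0]; congr 1; ring
      have b3 : (2:ℝ) ≤ (m:ℝ)^((1/16:ℝ) * m) := by
        rw [Real.rpow_mul hm0.le, Real.rpow_natCast]
        calc (2:ℝ) ≤ 4 := by norm_num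
          _ ≤ (m:ℝ)^(1/16:ℝ) := h1
          _ = ((m:ℝ)^(1/16:ℝ))^1 := by rw [pow_one]
          _ ≤ ((m:ℝ)^(1/16:ℝ))^m := pow_le_pow_right₀ (by linarith) (by omega)
      rw [b1, b2]
      exact mul_le_mul_of_nonneg_left b3 (by positivity)
    linarith
  have hDpos : 0 ≤ (D m : ℝ) := by positivity
  have hs74 : (m:ℝ)^(7/4:ℝ) ≤ s / 4 := by
    have : s = (m:ℝ)^(7/4:ℝ) * (m:ℝ)^(1/16:ℝ) := by
      rw [hs, ← Real.rpow_add hm0]; norm_num
    rw [this]
    have : 0 < (m:ℝ)^(7/4:ℝ) := by positivity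
    nlinarith
  calc (m:ℝ)^(7/4:ℝ) * (D m : ℝ) ≤ (s/4) * (D m : ℝ) := mul_le_mul_of_nonneg_right hs74 hDpos
    _ = (s/2) * ((D m : ℝ)/2) := by ring
    _ ≤ (s - m) * ((D m : ℝ) - s^m) := by
        apply mul_le_mul _ _ (by positivity) (by linarith)
        · linarith
        · linarith
    _ ≤ _ := hst

/-- main growth estimate -/
theorem D_growth : ∀ᶠ n : ℕ in atTop, ∀ k, k ≤ n →
    (D (n-k) : ℝ) * (((n:ℝ)/2)^(7/4:ℝ))^k ≤ (D n : ℝ) := by
  obtain ⟨N, hN⟩ := eventually_atTop.1 D_step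
  filter_upwards [D_lower, eventually_ge_atTop (2 * N + 2)] with n hD hn
  have hn2 : (2:ℝ) ≤ n := by
    have : 2 ≤ n := by omega
    exact_mod_cast this
  have hn0 : (0:ℝ) < n := by linarith
  intro k hk
  by_cases hk2 : 2 * k ≤ n
  · induction k with
    | zero => simp
    | succ k ih =>
      have ih' := ih (by omega) (by omega)
      have hst := hN (n - (k+1)) (by omega)
      rw [show n - (k+1) + 1 = n - k by omega] at hst
      have hle : ((n:ℝ)/2)^(7/4:ℝ) ≤ ((n - (k+1) : ℕ) : ℝ)^(7/4:ℝ) := by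
        apply Real.rpow_le_rpow (by positivity) _ (by norm_num)
        have : n ≤ 2 * (n - (k+1)) := by omega
        have : (n:ℝ) ≤ 2 * ((n - (k+1) : ℕ) : ℝ) := by exact_mod_cast this
        linarith
      calc (D (n-(k+1)) : ℝ) * (((n:ℝ)/2)^(7/4:ℝ))^(k+1)
          = (((n:ℝ)/2)^(7/4:ℝ) * (D (n-(k+1)) : ℝ)) * (((n:ℝ)/2)^(7/4:ℝ))^k := by ring
        _ ≤ (((n - (k+1) : ℕ) : ℝ)^(7/4:ℝ) * (D (n-(k+1)) : ℝ)) * (((n:ℝ)/2)^(7/4:ℝ))^k := by
            apply mul_le_mul_of_nonneg_right _ (by positivity)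
            exact mul_le_mul_of_nonneg_right hle (by positivity)
        _ ≤ (D (n-k) : ℝ) * (((n:ℝ)/2)^(7/4:ℝ))^k := mul_le_mul_of_nonneg_right hst (by positivity)
        _ ≤ _ := ih'
  · push Not at hk2
    have h1 : (D (n-k) : ℝ) ≤ (n:ℝ)^(2 * ((n:ℝ) - k)) := by
      have a1 := D_le (n-k)
      calc (D (n-k) : ℝ) ≤ ((n-k : ℕ) : ℝ)^(2 * (n-k)) := by exact_mod_cast a1
        _ ≤ (n:ℝ)^(2 * (n-k)) := by
            apply pow_le_pow_left₀ (by positivity)
            have : n - k ≤ n := Nat.sub_le _ _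
            exact_mod_cast this
        _ = (n:ℝ)^(2 * ((n:ℝ) - k)) := by
            rw [← Real.rpow_natCast]
            congr 1
            push_cast [Nat.cast_sub hk]
            ring
    have h2 : (((n:ℝ)/2)^(7/4:ℝ))^k ≤ (n:ℝ)^((7/4:ℝ) * k) := by
      rw [Real.rpow_mul hn0.le, Real.rpow_natCast]
      apply pow_le_pow_left₀ (by positivity)
      apply Real.rpow_le_rpow (by positivity) _ (by norm_num)
      linarith
    calc (D (n-k) : ℝ) * (((n:ℝ)/2)^(7/4:ℝ))^k ≤ (n:ℝ)^(2 * ((n:ℝ) - k)) * (n:ℝ)^((7/4:ℝ) * k) :=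
          mul_le_mul h1 h2 (by positivity) (by positivity)
      _ = (n:ℝ)^(2 * ((n:ℝ) - k) + (7/4:ℝ) * k) := by rw [← Real.rpow_add hn0]
      _ ≤ (n:ℝ)^((15/8:ℝ) * n) := by
          apply Real.rpow_le_rpow_of_exponent_le (by linarith)
          have : (n:ℝ) < 2 * k := by exact_mod_cast hk2
          linarith
      _ ≤ _ := hD

section enc
variable {n : ℕ} (σ : Equiv.Perm (Fin n))

def InvS (r : Setoid (Fin n)) : Prop := ∀ i j, r (σ i) (σ j) ↔ r i j

theorem InvS.zpow {σ : Equiv.Perm (Fin n)} {r : Setoid (Fin n)} (h : InvS σ r) (u : ℤ) (i j : Fin n) :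
    r ((σ^u) i) ((σ^u) j) ↔ r i j := by
  induction u with
  | zero => simp
  | succ k ih =>
    rw [zpow_add_one, ← ih]
    have : σ^(k:ℤ) * σ = σ * σ^(k:ℤ) := by rw [← zpow_add_one, ← zpow_one_add]; congr 1; ring
    rw [this, Equiv.Perm.mul_apply, Equiv.Perm.mul_apply, h]
  | pred k ih =>
    rw [← ih]
    have : σ^(-(k:ℤ)) = σ * σ^(-(k:ℤ) - 1) := by
      rw [← zpow_one_add]; congr 1; ring
    rw [this, Equiv.Perm.mul_apply, Equiv.Perm.mul_apply, h]

noncomputable def rep (i : Fin n) : Fin n := (Quotient.mk (Equiv.Perm.SameCycle.setoid σ) i).out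

theorem rep_same (i : Fin n) : σ.SameCycle (rep σ i) i := by
  have : (Equiv.Perm.SameCycle.setoid σ) (rep σ i) i := Quotient.exact (Quotient.out_eq _)
  exact this

theorem rep_eq {i j : Fin n} (h : σ.SameCycle i j) : rep σ i = rep σ j := by
  unfold rep
  congr 1
  exact Quotient.sound h

theorem rep_rep (i : Fin n) : rep σ (rep σ i) = rep σ i := rep_eq σ (rep_same σ i)

theorem rep_zpow (u : ℤ) (i : Fin n) : rep σ ((σ^u) i) = rep σ i :=
  (rep_eq σ ⟨u, rfl⟩).symm

theorem moved_zpow (u : ℤ) (i : Fin n) : σ ((σ^u) i) = (σ^u) i ↔ σ i = i := by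
  have : σ ((σ^u) i) = (σ^u) (σ i) := by
    rw [← Equiv.Perm.mul_apply, ← Equiv.Perm.mul_apply]
    congr 1
    rw [← zpow_one_add, ← zpow_add_one]
    congr 1; ring
  rw [this]
  exact (σ^u).injective.eq_iff

open Classical in
noncomputable def rho (i : Fin n) : ℕ := if σ i = i then 0 else (rep σ i).val + 1

theorem rho_zpow (u : ℤ) (i : Fin n) : rho σ ((σ^u) i) = rho σ i := by
  unfold rho
  simp only [moved_zpow, rep_zpow]

theorem exists_d {r : Setoid (Fin n)} (h : InvS σ r) (m : Fin n) :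
    ∃ d : Fin n, r m d ∧ ((∃ j, r m j ∧ rho σ j < rho σ m) → rho σ d < rho σ m) ∧
      ((¬ ∃ j, r m j ∧ rho σ j < rho σ m) → ∃ t : ℤ, d = (σ^t) m ∧ ∀ u : ℤ, r m ((σ^u) m) → ∃ k : ℤ, u = k * t) := by
  by_cases hc : ∃ j, r m j ∧ rho σ j < rho σ m
  · obtain ⟨j, hj1, hj2⟩ := hc
    exact ⟨j, hj1, fun _ => hj2, fun h => absurd ⟨j, hj1, hj2⟩ h⟩
  · let H : AddSubgroup ℤ :=
      { carrier := {u | r m ((σ^u) m)}
        zero_mem' := by simp
        add_mem' := by
          intro a b ha hb
          simp only [Set.mem_ofPred_eq] at *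
          have : r ((σ^a) m) ((σ^(a+b)) m) := by
            rw [zpow_add, Equiv.Perm.mul_apply]
            exact (h.zpow a _ _).2 hb
          exact r.trans ha this
        neg_mem' := by
          intro a ha
          simp only [Set.mem_ofPred_eq] at *
          have := (h.zpow (-a) _ _).2 ha
          rw [← Equiv.Perm.mul_apply, ← zpow_add] at this
          simp at this
          exact r.symm (by simpa using this) }
    obtain ⟨t, ht⟩ := Int.subgroup_cyclic H
    rw [← AddSubgroup.zmultiples_eq_closure] at ht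
    have htH : t ∈ H := by rw [ht]; exact AddSubgroup.mem_zmultiples t
    refine ⟨(σ^t) m, htH, fun h => absurd h hc, fun _ => ⟨t, rfl, fun u hu => ?_⟩⟩
    have : u ∈ H := hu
    rw [ht, AddSubgroup.mem_zmultiples_iff] at this
    obtain ⟨k, hk⟩ := this
    exact ⟨k, by rw [← hk]; simp⟩

/-- the generating relation -/
def Srel (R : Fin n → Fin n → Prop) (e : Fin n → Fin n) (a b : Fin n) : Prop :=
  (σ a = a ∧ σ b = b ∧ R a b) ∨ ∃ (u : ℤ) (m : Fin n), σ m ≠ m ∧ rep σ m = m ∧ a = (σ^u) m ∧ b = (σ^u) (e m)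

theorem gen_eq {r : Setoid (Fin n)} (h : InvS σ r) (e : Fin n → Fin n)
    (he : ∀ m, r m (e m) ∧ ((∃ j, r m j ∧ rho σ j < rho σ m) → rho σ (e m) < rho σ m) ∧
      ((¬ ∃ j, r m j ∧ rho σ j < rho σ m) → ∃ t : ℤ, e m = (σ^t) m ∧ ∀ u : ℤ, r m ((σ^u) m) → ∃ k : ℤ, u = k * t))
    (a b : Fin n) : r a b ↔ EqvGen (Srel σ (fun a b => r a b) e) a b := by
  constructor
  · have key : ∀ N : ℕ, ∀ a b : Fin n, rho σ a ≤ N → rho σ b ≤ N → r a b →
        EqvGen (Srel σ (fun a b => r a b) e) a b := by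
      intro N
      induction N with
      | zero =>
        intro a b ha hb hab
        have hfix : ∀ x, rho σ x ≤ 0 → σ x = x := by
          intro x hx
          by_contra hx'
          unfold rho at hx
          rw [if_neg hx'] at hx
          omega
        exact EqvGen.rel _ _ (Or.inl ⟨hfix a ha, hfix b hb, hab⟩)
      | succ N ih =>
        -- representation of elements of level N+1
        have lev : ∀ x, rho σ x = N + 1 → σ x ≠ x ∧ (rep σ x).val = N := by
          intro x hx
          unfold rho at hx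
          split_ifs at hx with h1
          exact ⟨h1, by omega⟩
        intro a b ha hb hab
        -- for level N+1 element x, with m = rep x
        have down : ∀ x, rho σ x = N + 1 → (∃ j, r (rep σ x) j ∧ rho σ j < rho σ (rep σ x)) →
            ∃ x', rho σ x' ≤ N ∧ r x x' ∧ EqvGen (Srel σ (fun a b => r a b) e) x x' := by
          intro x hx hex
          obtain ⟨u, hu⟩ := rep_same σ x
          have hm := he (rep σ x)
          have h2 := hm.2.1 hex
          have hrr : rho σ (rep σ x) = N + 1 := by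
            have := rho_zpow σ u (rep σ x)
            rw [hu, hx] at this
            exact this.symm
          refine ⟨(σ^u) (e (rep σ x)), ?_, ?_, ?_⟩
          · rw [rho_zpow]; omega
          · have := (h.zpow u _ _).2 hm.1
            rwa [hu] at this
          · apply EqvGen.rel
            right
            exact ⟨u, rep σ x, (lev _ hrr).1, rep_rep σ x, hu.symm, rfl⟩
        have samerep : ∀ x y, rho σ x = N + 1 → rho σ y = N + 1 → rep σ x = rep σ y := by
          intro x y hx hy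
          apply Fin.ext
          rw [(lev x hx).2, (lev y hy).2]
        rcases Nat.lt_or_ge (rho σ a) (N+1) with ha' | ha' <;> rcases Nat.lt_or_ge (rho σ b) (N+1) with hb' | hb'
        · exact ih a b (by omega) (by omega) hab
        · have hbe : rho σ b = N + 1 := by omega
          have hex : ∃ j, r (rep σ b) j ∧ rho σ j < rho σ (rep σ b) := by
            obtain ⟨u, hu⟩ := rep_same σ b
            refine ⟨(σ^(-u)) a, ?_, ?_⟩
            · have := (h.zpow (-u) _ _).2 (r.symm hab)
              rw [← hu, ← Equiv.Perm.mul_apply, ← zpow_add] at this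
              simpa using this
            · rw [rho_zpow]
              have := rho_zpow σ u (rep σ b)
              rw [hu, hbe] at this
              omega
          obtain ⟨b', h1, h2, h3⟩ := down b hbe hex
          exact EqvGen.trans _ _ _ (ih a b' (by omega) h1 (r.trans hab h2)) (EqvGen.symm _ _ h3)
        · have hae : rho σ a = N + 1 := by omega
          have hex : ∃ j, r (rep σ a) j ∧ rho σ j < rho σ (rep σ a) := by
            obtain ⟨u, hu⟩ := rep_same σ a
            refine ⟨(σ^(-u)) b, ?_, ?_⟩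
            · have := (h.zpow (-u) _ _).2 hab
              nth_rw 1 [← hu] at this
              rw [← Equiv.Perm.mul_apply, ← zpow_add] at this
              simpa using this
            · rw [rho_zpow]
              have := rho_zpow σ u (rep σ a)
              rw [hu, hae] at this
              omega
          obtain ⟨a', h1, h2, h3⟩ := down a hae hex
          exact EqvGen.trans _ _ _ h3 (ih a' b h1 (by omega) (r.trans (r.symm h2) hab))
        · have hae : rho σ a = N + 1 := by omega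
          have hbe : rho σ b = N + 1 := by omega
          have hrep := samerep a b hae hbe
          by_cases hex : ∃ j, r (rep σ a) j ∧ rho σ j < rho σ (rep σ a)
          · obtain ⟨a', h1, h2, h3⟩ := down a hae hex
            obtain ⟨b', h1', h2', h3'⟩ := down b hbe (by rw [← hrep]; exact hex)
            exact EqvGen.trans _ _ _ h3 (EqvGen.trans _ _ _
              (ih a' b' h1 h1' (r.trans (r.symm h2) (r.trans hab h2'))) (EqvGen.symm _ _ h3'))
          · obtain ⟨t, ht1, ht2⟩ := (he (rep σ a)).2.2 hex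
            obtain ⟨s, hs⟩ := rep_same σ a
            obtain ⟨s', hs'⟩ := rep_same σ b
            rw [← hrep] at hs'
            have hm : σ (rep σ a) ≠ rep σ a := by
              intro hh
              apply (lev a hae).1
              rw [← hs, moved_zpow]; exact hh
            have h1 : r (rep σ a) ((σ^(s' - s)) (rep σ a)) := by
              have := (h.zpow (-s) _ _).2 hab
              rw [← hs', ← Equiv.Perm.mul_apply, ← zpow_add] at this
              have h2 : (σ^(-s)) a = rep σ a := by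
                nth_rw 1 [← hs]
                rw [← Equiv.Perm.mul_apply, ← zpow_add]; simp
              rw [h2] at this
              rwa [show -s + s' = s' - s by ring] at this
            obtain ⟨k, hk⟩ := ht2 _ h1
            have step : ∀ v : ℤ, EqvGen (Srel σ (fun a b => r a b) e) ((σ^v) (rep σ a)) ((σ^(v + t)) (rep σ a)) := by
              intro v
              apply EqvGen.rel
              right
              refine ⟨v, rep σ a, hm, rep_rep σ a, rfl, ?_⟩
              rw [ht1, zpow_add, Equiv.Perm.mul_apply]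
            have chain : ∀ k : ℤ, EqvGen (Srel σ (fun a b => r a b) e) ((σ^s) (rep σ a)) ((σ^(s + k * t)) (rep σ a)) := by
              intro k
              induction k with
              | zero => simp; exact EqvGen.refl _
              | succ k ih =>
                refine EqvGen.trans _ _ _ ih ?_
                have := step (s + k * t)
                rwa [show s + (k:ℤ) * t + t = s + (k + 1) * t by ring] at this
              | pred k ih =>
                refine EqvGen.trans _ _ _ ih ?_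
                have := step (s + (-(k:ℤ) - 1) * t)
                rw [show s + (-(k:ℤ) - 1) * t + t = s + (-(k:ℤ)) * t by ring] at this
                exact EqvGen.symm _ _ this
            have := chain k
            rw [← hk, show s + (s' - s) = s' by ring, hs, hs'] at this
            exact this
    exact key (max (rho σ a) (rho σ b)) a b (le_max_left _ _) (le_max_right _ _)
  · intro hg
    induction hg with
    | rel a b hab =>
      rcases hab with ⟨_, _, h1⟩ | ⟨u, m, _, _, rfl, rfl⟩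
      · exact h1
      · exact (h.zpow u _ _).2 (he m).1
    | refl a => exact r.refl a
    | symm a b _ ih => exact r.symm ih
    | trans a b c _ _ ih1 ih2 => exact r.trans ih1 ih2

/-- the fixed pairs -/
def FixP (σ : Equiv.Perm (Fin n)) : Type := {x : PP (Fin n) // InvS σ x.1.1 ∧ InvS σ x.1.2}

instance (σ : Equiv.Perm (Fin n)) : Finite (FixP σ) := by unfold FixP; infer_instance

theorem card_fix_le (M : Finset (Fin n)) (hM : ∀ i, i ∈ M ↔ σ i ≠ i) (hMσ : ∀ i, σ i ∈ M ↔ i ∈ M) :
    Nat.card (FixP σ) ≤ D (n - M.card) *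
      (Nat.card {f : M → Bool × Fin n // ∀ i : M, f ⟨σ i, (hMσ i).2 i.2⟩ = f i} *
       Nat.card {f : M → M // ∀ i : M, f ⟨σ i, (hMσ i).2 i.2⟩ = f i}) := by
  classical
  have hD : D (n - M.card) = Nat.card (PP {i : Fin n // i ∉ M}) := by
    rw [card_PP, Fintype.card_subtype_compl, Fintype.card_fin, Fintype.card_coe]
  rw [hD, ← Nat.card_prod, ← Nat.card_prod]
  -- choose encodings
  let e1 : FixP σ → Fin n → Fin n := fun x m => (exists_d σ x.2.1 m).choose
  have he1 : ∀ x : FixP σ, ∀ m, _ := fun x m => (exists_d σ x.2.1 m).choose_spec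
  let e2 : FixP σ → Fin n → Fin n := fun x m => (exists_d σ x.2.2 m).choose
  have he2 : ∀ x : FixP σ, ∀ m, _ := fun x m => (exists_d σ x.2.2 m).choose_spec
  have hor : ∀ x : FixP σ, ∀ m, m ∈ M → e1 x m ∉ M → e2 x m ∈ M := by
    intro x m hm h1
    by_contra h2
    have f1 : σ (e1 x m) = e1 x m := by
      by_contra hh; exact h1 ((hM _).2 hh)
    have f2 : σ (e2 x m) = e2 x m := by
      by_contra hh; exact h2 ((hM _).2 hh)
    have r1 : x.1.1.1 m (e1 x m) := (he1 x m).1
    have r2 : x.1.1.2 m (e2 x m) := (he2 x m).1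
    have s1 : x.1.1.1 (σ m) (e1 x m) := by
      have := (x.2.1 _ _).2 r1
      rwa [f1] at this
    have s2 : x.1.1.2 (σ m) (e2 x m) := by
      have := (x.2.2 _ _).2 r2
      rwa [f2] at this
    have := x.1.2 m (σ m) (x.1.1.1.trans r1 (x.1.1.1.symm s1)) (x.1.1.2.trans r2 (x.1.1.2.symm s2))
    exact (hM m).1 hm this.symm
  have hrepM : ∀ i, i ∈ M → rep σ i ∈ M := by
    intro i hi
    obtain ⟨u, hu⟩ := rep_same σ i
    rw [hM] at hi ⊢
    intro hh
    apply hi
    rw [← hu, moved_zpow]; exact hh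
  have hrepσ : ∀ i, rep σ (σ i) = rep σ i := fun i => by
    have := rep_zpow σ 1 i
    simpa using this
  let F1 : FixP σ → (M → Bool × Fin n) := fun x i =>
    if h : e1 x (rep σ i) ∈ M then (true, e2 x (rep σ i)) else (false, e1 x (rep σ i))
  let F2 : FixP σ → (M → M) := fun x i =>
    if h : e1 x (rep σ i) ∈ M then ⟨e1 x (rep σ i), h⟩ else ⟨e2 x (rep σ i), hor x _ (hrepM i i.2) h⟩
  have hF1 : ∀ x : FixP σ, ∀ i : M, F1 x ⟨σ i, (hMσ i).2 i.2⟩ = F1 x i := by
    intro x i
    simp only [F1, hrepσ]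
  have hF2 : ∀ x : FixP σ, ∀ i : M, F2 x ⟨σ i, (hMσ i).2 i.2⟩ = F2 x i := by
    intro x i
    simp only [F2, hrepσ]
  apply Nat.card_le_card_of_injective (fun x : FixP σ =>
    ((⟨(x.1.1.1.comap (fun i : {i : Fin n // i ∉ M} => i.1), x.1.1.2.comap (fun i : {i : Fin n // i ∉ M} => i.1)),
      fun i j h1 h2 => Subtype.ext (x.1.2 _ _ h1 h2)⟩ : PP {i : Fin n // i ∉ M}),
      ((⟨F1 x, hF1 x⟩ : {f : M → Bool × Fin n // ∀ i : M, f ⟨σ i, (hMσ i).2 i.2⟩ = f i}),
       (⟨F2 x, hF2 x⟩ : {f : M → M // ∀ i : M, f ⟨σ i, (hMσ i).2 i.2⟩ = f i}))))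
  intro x y hxy
  simp only [Prod.mk.injEq, Subtype.mk.injEq] at hxy
  obtain ⟨h0, h1, h2⟩ := hxy
  obtain ⟨ha, hb⟩ := h0
  -- encodings agree on moved representatives
  have hagree : ∀ m, σ m ≠ m → rep σ m = m → e1 x m = e1 y m ∧ e2 x m = e2 y m := by
    intro m hm hr
    have hmM : m ∈ M := (hM m).2 hm
    have g1 := congrFun h1 ⟨m, hmM⟩
    have g2 := congrFun h2 ⟨m, hmM⟩
    simp only [F1, F2, hr] at g1 g2
    by_cases c1 : e1 x m ∈ M <;> by_cases c2 : e1 y m ∈ M
    · rw [dif_pos c1, dif_pos c2] at g1 g2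
      exact ⟨congrArg Subtype.val g2, congrArg Prod.snd g1⟩
    · rw [dif_pos c1, dif_neg c2] at g1
      exact absurd (congrArg Prod.fst g1) (by simp)
    · rw [dif_neg c1, dif_pos c2] at g1
      exact absurd (congrArg Prod.fst g1) (by simp)
    · rw [dif_neg c1, dif_neg c2] at g1 g2
      exact ⟨congrArg Prod.snd g1, congrArg Subtype.val g2⟩
  have hfixR : ∀ (r s : Setoid (Fin n)), r.comap (fun i : {i : Fin n // i ∉ M} => i.1) =
      s.comap (fun i : {i : Fin n // i ∉ M} => i.1) → ∀ a b, σ a = a → σ b = b → (r a b ↔ s a b) := by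
    intro r s hrs a b h1 h2
    have ha : a ∉ M := fun h => (hM a).1 h h1
    have hb : b ∉ M := fun h => (hM b).1 h h2
    have : (r.comap (fun i : {i : Fin n // i ∉ M} => i.1)) ⟨a, ha⟩ ⟨b, hb⟩ ↔
      (s.comap (fun i : {i : Fin n // i ∉ M} => i.1)) ⟨a, ha⟩ ⟨b, hb⟩ := by rw [hrs]
    exact this
  have hS1 : Srel σ (fun a b => x.1.1.1 a b) (e1 x) = Srel σ (fun a b => y.1.1.1 a b) (e1 y) := by
    funext a b
    apply propext
    unfold Srel
    constructor
    · rintro (⟨h1, h2, h3⟩ | ⟨u, m, h1, h2, h3, h4⟩)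
      · exact Or.inl ⟨h1, h2, (hfixR _ _ ha a b h1 h2).1 h3⟩
      · exact Or.inr ⟨u, m, h1, h2, h3, by rw [h4, (hagree m h1 h2).1]⟩
    · rintro (⟨h1, h2, h3⟩ | ⟨u, m, h1, h2, h3, h4⟩)
      · exact Or.inl ⟨h1, h2, (hfixR _ _ ha a b h1 h2).2 h3⟩
      · exact Or.inr ⟨u, m, h1, h2, h3, by rw [h4, (hagree m h1 h2).1]⟩
  have hS2 : Srel σ (fun a b => x.1.1.2 a b) (e2 x) = Srel σ (fun a b => y.1.1.2 a b) (e2 y) := by
    funext a b
    apply propext
    unfold Srel
    constructor
    · rintro (⟨h1, h2, h3⟩ | ⟨u, m, h1, h2, h3, h4⟩)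
      · exact Or.inl ⟨h1, h2, (hfixR _ _ hb a b h1 h2).1 h3⟩
      · exact Or.inr ⟨u, m, h1, h2, h3, by rw [h4, (hagree m h1 h2).2]⟩
    · rintro (⟨h1, h2, h3⟩ | ⟨u, m, h1, h2, h3, h4⟩)
      · exact Or.inl ⟨h1, h2, (hfixR _ _ hb a b h1 h2).2 h3⟩
      · exact Or.inr ⟨u, m, h1, h2, h3, by rw [h4, (hagree m h1 h2).2]⟩
  apply Subtype.ext
  apply Subtype.ext
  apply Prod.ext
  · ext a b
    have q1 := gen_eq σ x.2.1 (e1 x) (he1 x) a b
    have q2 := gen_eq σ y.2.1 (e1 y) (he1 y) a b
    rw [hS1] at q1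
    exact q1.trans q2.symm
  · ext a b
    have q1 := gen_eq σ x.2.2 (e2 x) (he2 x) a b
    have q2 := gen_eq σ y.2.2 (e2 y) (he2 y) a b
    rw [hS2] at q1
    exact q1.trans q2.symm

end enc

/-- invariant colourings of a fixed point free permutation -/
theorem card_inv_le {ι β : Type} [Fintype ι] [LinearOrder ι] [Fintype β] (hβ : 1 ≤ Fintype.card β)
    (τ : Equiv.Perm ι) (hτ : ∀ i, τ i ≠ i) :
    Nat.card {f : ι → β // ∀ i, f (τ i) = f i} ≤ (Fintype.card β)^(Fintype.card ι / 2) := by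
  classical
  -- general reduction to a transversal
  have key : ∀ A : Finset ι, (∀ i, ∃ s : ℕ, (τ^s) i ∈ A) →
      Nat.card {f : ι → β // ∀ i, f (τ i) = f i} ≤ (Fintype.card β)^A.card := by
    intro A hA
    have h1 : (Fintype.card β)^A.card = Nat.card (A → β) := by
      rw [Nat.card_eq_fintype_card, Fintype.card_fun, Fintype.card_coe]
    rw [h1]
    apply Nat.card_le_card_of_injective (fun f : {f : ι → β // ∀ i, f (τ i) = f i} => fun a : A => f.1 a)
    intro f g hfg
    have hpow : ∀ (f : {f : ι → β // ∀ i, f (τ i) = f i}) (s : ℕ) (i : ι), f.1 ((τ^s) i) = f.1 i := by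
      intro f s
      induction s with
      | zero => intro i; simp
      | succ s ih =>
        intro i
        rw [pow_succ', Equiv.Perm.mul_apply, f.2, ih]
    apply Subtype.ext
    funext i
    obtain ⟨s, hs⟩ := hA i
    rw [← hpow f s i, ← hpow g s i]
    exact congrFun hfg ⟨_, hs⟩
  set A : Finset ι := univ.filter (fun i => i < τ i) with hAdef
  set B : Finset ι := univ.filter (fun i => τ i < i) with hBdef
  have hAB : A.card + B.card = Fintype.card ι := by
    rw [← Finset.card_union_of_disjoint]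
    · rw [← Finset.card_univ]
      congr 1
      ext i
      simp only [hAdef, hBdef, mem_union, mem_filter, mem_univ, true_and, iff_true]
      exact (lt_or_gt_of_ne (hτ i).symm)
    · rw [Finset.disjoint_left]
      intro i h1 h2
      simp only [hAdef, hBdef, mem_filter, mem_univ, true_and] at h1 h2
      exact absurd h1 (lt_asymm h2)
  have hord : ∀ i, ∃ s : ℕ, 0 < s ∧ (τ^s) i = i := by
    intro i
    exact ⟨orderOf τ, orderOf_pos τ, by rw [pow_orderOf_eq_one]; rfl⟩
  have hAt : ∀ i, ∃ s : ℕ, (τ^s) i ∈ A := by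
    intro i
    by_contra hno
    push Not at hno
    have hdec : ∀ s : ℕ, (τ^(s+1)) i < (τ^s) i := by
      intro s
      have := hno s
      simp only [hAdef, mem_filter, mem_univ, true_and, not_lt] at this
      rw [pow_succ', Equiv.Perm.mul_apply]
      exact lt_of_le_of_ne this (hτ _)
    have hanti : StrictAnti (fun s : ℕ => (τ^s) i) := strictAnti_nat_of_succ_lt hdec
    obtain ⟨s, hs0, hs⟩ := hord i
    have := hanti hs0
    simp only [pow_zero, Equiv.Perm.one_apply] at this
    rw [hs] at this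
    exact lt_irrefl _ this
  have hBt : ∀ i, ∃ s : ℕ, (τ^s) i ∈ B := by
    intro i
    by_contra hno
    push Not at hno
    have hinc : ∀ s : ℕ, (τ^s) i < (τ^(s+1)) i := by
      intro s
      have := hno s
      simp only [hBdef, mem_filter, mem_univ, true_and, not_lt] at this
      rw [pow_succ', Equiv.Perm.mul_apply]
      exact lt_of_le_of_ne this (hτ _).symm
    have hmono : StrictMono (fun s : ℕ => (τ^s) i) := strictMono_nat_of_lt_succ hinc
    obtain ⟨s, hs0, hs⟩ := hord i
    have := hmono hs0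
    simp only [pow_zero, Equiv.Perm.one_apply] at this
    rw [hs] at this
    exact lt_irrefl _ this
  rcases Nat.lt_or_ge (Fintype.card ι / 2) A.card with h | h
  · refine (key B hBt).trans (Nat.pow_le_pow_right hβ ?_)
    omega
  · exact (key A hAt).trans (Nat.pow_le_pow_right hβ h)

noncomputable def TT (ι β : Type) : ℕ := Nat.card {p : Equiv.Perm ι × (ι → β) // ∀ i, p.2 (p.1 i) = p.2 i}

theorem TT_option (ι β : Type) [Fintype ι] [Fintype β] [DecidableEq ι] :
    TT (Option ι) β ≤ (Fintype.card β + Fintype.card ι) * TT ι β := by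
  classical
  unfold TT
  have h1 : (Fintype.card β + Fintype.card ι) = Nat.card (β ⊕ ι) := by
    rw [Nat.card_eq_fintype_card, Fintype.card_sum]
  rw [h1, ← Nat.card_prod]
  -- facts about the decomposition
  have key : ∀ p : {p : Equiv.Perm (Option ι) × (Option ι → β) // ∀ i, p.2 (p.1 i) = p.2 i},
      ∀ x, p.1.2 (some ((Equiv.Perm.decomposeOption p.1.1).2 x)) = p.1.2 (some x) := by
    rintro ⟨⟨τ', f'⟩, hp⟩ x
    simp only at hp ⊢
    rcases hdec : Equiv.Perm.decomposeOption τ' with ⟨o, τ⟩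
    simp only
    have hτ' : τ' = Equiv.swap none o * Equiv.optionCongr τ := by
      have := congrArg Equiv.Perm.decomposeOption.symm hdec
      rw [Equiv.symm_apply_apply] at this
      rw [this]; rfl
    have e1 : τ' (some x) = Equiv.swap none o (some (τ x)) := by rw [hτ']; rfl
    have e2 : τ' none = Equiv.swap none o none := by rw [hτ']; rfl
    cases o with
    | none =>
      have := hp (some x)
      rw [e1] at this
      simpa using this
    | some j =>
      have h1 := hp (some x)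
      have h2 := hp none
      rw [e1] at h1
      rw [e2, Equiv.swap_apply_left] at h2
      by_cases hj : τ x = j
      · rw [hj, Equiv.swap_apply_right] at h1
        rw [hj, h2, h1]
      · rw [Equiv.swap_apply_of_ne_of_ne (by simp) (by simpa using hj)] at h1
        exact h1
  have keynone : ∀ p : {p : Equiv.Perm (Option ι) × (Option ι → β) // ∀ i, p.2 (p.1 i) = p.2 i},
      ∀ j, (Equiv.Perm.decomposeOption p.1.1).1 = some j → p.1.2 none = p.1.2 (some j) := by
    rintro ⟨⟨τ', f'⟩, hp⟩ j hj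
    simp only at hp hj ⊢
    have : τ' none = some j := by
      rw [← hj]; rfl
    have h := hp none
    rw [this] at h
    exact h.symm
  let G : {p : Equiv.Perm (Option ι) × (Option ι → β) // ∀ i, p.2 (p.1 i) = p.2 i} → β ⊕ ι := fun p =>
    match (Equiv.Perm.decomposeOption p.1.1).1 with
    | none => Sum.inl (p.1.2 none)
    | some j => Sum.inr j
  apply Nat.card_le_card_of_injective (fun p => (G p,
    (⟨((Equiv.Perm.decomposeOption p.1.1).2, fun x => p.1.2 (some x)), key p⟩ :
      {p : Equiv.Perm ι × (ι → β) // ∀ i, p.2 (p.1 i) = p.2 i})))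
  intro p p' h
  simp only [Prod.mk.injEq, Subtype.mk.injEq] at h
  obtain ⟨hG, h2, h3⟩ := h
  have ho : (Equiv.Perm.decomposeOption p.1.1).1 = (Equiv.Perm.decomposeOption p'.1.1).1 ∧ p.1.2 none = p'.1.2 none := by
    simp only [G] at hG
    rcases hA : (Equiv.Perm.decomposeOption p.1.1).1 with _ | j <;>
      rcases hB : (Equiv.Perm.decomposeOption p'.1.1).1 with _ | j' <;> rw [hA, hB] at hG
    · simp only [Sum.inl.injEq] at hG
      exact ⟨rfl, hG⟩
    · simp at hG
    · simp at hG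
    · simp only [Sum.inr.injEq] at hG
      subst hG
      refine ⟨rfl, ?_⟩
      rw [keynone p j hA, keynone p' j hB]
      exact congrFun h3 j
  apply Subtype.ext
  apply Prod.ext
  · apply Equiv.Perm.decomposeOption.injective
    exact Prod.ext ho.1 h2
  · funext x
    cases x with
    | none => exact ho.2
    | some x => exact congrFun h3 x

theorem TT_congr {ι ι' β : Type} (e : ι ≃ ι') : TT ι β = TT ι' β := by
  unfold TT
  apply Nat.card_congr
  exact
    { toFun := fun p => ⟨(e.permCongr p.1.1, p.1.2 ∘ e.symm), fun i => by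
        simp only [Equiv.permCongr_apply, Function.comp, Equiv.symm_apply_apply]
        exact p.2 _⟩
      invFun := fun p => ⟨(e.symm.permCongr p.1.1, p.1.2 ∘ e), fun i => by
        simp only [Equiv.permCongr_apply, Function.comp, Equiv.symm_symm, Equiv.apply_symm_apply]
        exact p.2 _⟩
      left_inv := fun p => by
        apply Subtype.ext
        apply Prod.ext
        · ext x; simp [Equiv.permCongr_apply]
        · funext x; simp
      right_inv := fun p => by
        apply Subtype.ext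
        apply Prod.ext
        · ext x; simp [Equiv.permCongr_apply]
        · funext x; simp }

theorem TT_fin (β : Type) [Fintype β] (k : ℕ) : TT (Fin k) β ≤ (Fintype.card β + k)^k := by
  classical
  induction k with
  | zero =>
    unfold TT
    have : Subsingleton {p : Equiv.Perm (Fin 0) × (Fin 0 → β) // ∀ i, p.2 (p.1 i) = p.2 i} := by
      infer_instance
    have h2 : Nat.card {p : Equiv.Perm (Fin 0) × (Fin 0 → β) // ∀ i, p.2 (p.1 i) = p.2 i} ≤ 1 :=
      Finite.card_le_one_iff_subsingleton.2 this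
    rw [pow_zero]
    exact h2
  | succ k ih =>
    rw [TT_congr (finSuccEquiv k)]
    refine (TT_option (Fin k) β).trans ?_
    rw [Fintype.card_fin]
    calc (Fintype.card β + k) * TT (Fin k) β ≤ (Fintype.card β + k) * (Fintype.card β + k)^k :=
          Nat.mul_le_mul_left _ ih
      _ = (Fintype.card β + k)^(k+1) := by ring
      _ ≤ (Fintype.card β + (k+1))^(k+1) := Nat.pow_le_pow_left (by omega) _

theorem TT_le (ι β : Type) [Fintype ι] [Fintype β] : TT ι β ≤ (Fintype.card β + Fintype.card ι)^(Fintype.card ι) := by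
  rw [TT_congr (Fintype.equivFin ι)]
  exact TT_fin β _

/-- sum of B over the permutations with given support -/
theorem sum_B_le (n : ℕ) (M : Finset (Fin n)) :
    ∑ σ ∈ (univ : Finset (Equiv.Perm (Fin n))).filter (fun σ => σ.support = M),
      Nat.card {f : M → M // ∀ i : M, ∀ h : σ i ∈ M, f ⟨σ i, h⟩ = f i} ≤ (2 * M.card)^M.card := by
  classical
  have h1 : ∑ σ ∈ (univ : Finset (Equiv.Perm (Fin n))).filter (fun σ => σ.support = M),
      Nat.card {f : M → M // ∀ i : M, ∀ h : σ i ∈ M, f ⟨σ i, h⟩ = f i} =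
      Nat.card (Σ σ : {σ : Equiv.Perm (Fin n) // σ.support = M},
        {f : M → M // ∀ i : M, ∀ h : σ.1 i ∈ M, f ⟨σ.1 i, h⟩ = f i}) := by
    rw [Nat.card_sigma]
    rw [← Finset.sum_subtype ((univ : Finset (Equiv.Perm (Fin n))).filter (fun σ => σ.support = M))
      (p := fun σ => σ.support = M) (by simp)
      (fun σ => Nat.card {f : M → M // ∀ i : M, ∀ h : σ i ∈ M, f ⟨σ i, h⟩ = f i})]
  rw [h1]
  have h2 := TT_le M M
  rw [Fintype.card_coe, ← two_mul] at h2
  refine le_trans ?_ h2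
  unfold TT
  have hperm : ∀ σ : {σ : Equiv.Perm (Fin n) // σ.support = M}, ∀ x, x ∈ M ↔ σ.1 x ∈ M := by
    rintro ⟨σ, hσ⟩ x
    simp only
    rw [← hσ]
    simp [Equiv.Perm.mem_support]
  apply Nat.card_le_card_of_injective (fun p : (Σ σ : {σ : Equiv.Perm (Fin n) // σ.support = M},
        {f : M → M // ∀ i : M, ∀ h : σ.1 i ∈ M, f ⟨σ.1 i, h⟩ = f i}) =>
    (⟨(Equiv.Perm.subtypePerm p.1.1 (fun x => (hperm p.1 x).symm), p.2.1), fun i => p.2.2 i ((hperm p.1 i).1 i.2)⟩ :
      {p : Equiv.Perm M × (M → M) // ∀ i, p.2 (p.1 i) = p.2 i}))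
  rintro ⟨⟨σ, hσ⟩, f, hf⟩ ⟨⟨τ, hτ⟩, g, hg⟩ h
  have h' := congrArg Subtype.val h
  have h1 : Equiv.Perm.subtypePerm σ (fun x => (hperm ⟨σ, hσ⟩ x).symm) =
      Equiv.Perm.subtypePerm τ (fun x => (hperm ⟨τ, hτ⟩ x).symm) := congrArg Prod.fst h'
  have h2 : f = g := congrArg Prod.snd h'
  have : σ = τ := by
    ext x
    by_cases hx : x ∈ M
    · have := congrArg (fun e : Equiv.Perm M => ((e ⟨x, hx⟩ : M) : Fin n)) h1
      simp only [Equiv.Perm.subtypePerm_apply] at this
      rw [this]
    · have a1 : σ x = x := by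
        rw [← hσ] at hx
        simpa [Equiv.Perm.mem_support] using hx
      have a2 : τ x = x := by
        rw [← hτ] at hx
        simpa [Equiv.Perm.mem_support] using hx
      rw [a1, a2]
  subst this
  subst h2
  rfl

noncomputable def Rn (n : ℕ) : ℕ := ∑ σ ∈ (univ : Finset (Equiv.Perm (Fin n))).erase 1, Nat.card (FixP σ)

theorem Rn_le (n : ℕ) : Rn n ≤ ∑ M ∈ (univ : Finset (Finset (Fin n))).erase ∅,
    D (n - M.card) * ((2*n)^(M.card / 2) * (2 * M.card)^M.card) := by
  classical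
  unfold Rn
  have hmaps : ∀ σ ∈ (univ : Finset (Equiv.Perm (Fin n))).erase 1, σ.support ∈ (univ : Finset (Finset (Fin n))).erase ∅ := by
    intro σ hσ
    rw [mem_erase] at hσ ⊢
    refine ⟨?_, mem_univ _⟩
    intro h
    exact hσ.1 (Equiv.Perm.support_eq_empty_iff.1 h)
  rw [← Finset.sum_fiberwise_of_maps_to hmaps]
  apply Finset.sum_le_sum
  intro M hM
  have hMne : M ≠ ∅ := (mem_erase.1 hM).1
  have hsub : ((univ : Finset (Equiv.Perm (Fin n))).erase 1).filter (fun σ => σ.support = M) ⊆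
      (univ : Finset (Equiv.Perm (Fin n))).filter (fun σ => σ.support = M) := by
    apply Finset.filter_subset_filter
    exact Finset.erase_subset _ _
  refine (Finset.sum_le_sum_of_subset hsub).trans ?_
  have hstep : ∀ σ ∈ (univ : Finset (Equiv.Perm (Fin n))).filter (fun σ => σ.support = M),
      Nat.card (FixP σ) ≤ D (n - M.card) * (2*n)^(M.card / 2) *
        Nat.card {f : M → M // ∀ i : M, ∀ h : σ i ∈ M, f ⟨σ i, h⟩ = f i} := by
    intro σ hσ
    have hs : σ.support = M := (mem_filter.1 hσ).2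
    have hM1 : ∀ i, i ∈ M ↔ σ i ≠ i := by
      intro i
      rw [← hs, Equiv.Perm.mem_support]
    have hM2 : ∀ i, σ i ∈ M ↔ i ∈ M := by
      intro i
      rw [hM1, hM1]
      simp
    have h1 := card_fix_le σ M hM1 hM2
    rw [mul_assoc]
    refine h1.trans (Nat.mul_le_mul_left _ ?_)
    apply Nat.mul_le_mul
    · obtain ⟨i0, hi0⟩ := Finset.nonempty_iff_ne_empty.2 hMne
      have hn : 1 ≤ n := by
        have := i0.2
        omega
      have hβ : 1 ≤ Fintype.card (Bool × Fin n) := by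
        rw [Fintype.card_prod, Fintype.card_bool, Fintype.card_fin]; omega
      have h2 := card_inv_le (ι := M) (β := Bool × Fin n) hβ (Equiv.Perm.subtypePerm σ (fun x => hM2 x)) (by
        intro i hi
        have := congrArg Subtype.val hi
        simp only [Equiv.Perm.subtypePerm_apply] at this
        exact (hM1 i).1 i.2 this)
      rw [Fintype.card_prod, Fintype.card_bool, Fintype.card_fin, Fintype.card_coe] at h2
      exact h2
    · apply le_of_eq
      apply Nat.card_congr
      apply Equiv.subtypeEquivRight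
      intro f
      constructor
      · intro h i hi
        exact h i
      · intro h i
        exact h i _
  refine (Finset.sum_le_sum hstep).trans ?_
  rw [← Finset.mul_sum, ← mul_assoc]
  exact Nat.mul_le_mul_left _ (sum_B_le n M)

theorem Rn_le' (n : ℕ) : Rn n ≤ ∑ k ∈ Finset.Icc 1 n,
    n.choose k * (D (n - k) * ((2*n)^(k / 2) * (2 * k)^k)) := by
  classical
  refine (Rn_le n).trans ?_
  have hmaps : ∀ M ∈ (univ : Finset (Finset (Fin n))).erase ∅, M.card ∈ Finset.Icc 1 n := by
    intro M hM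
    rw [mem_Icc]
    refine ⟨?_, ?_⟩
    · exact Finset.card_pos.2 (Finset.nonempty_iff_ne_empty.2 (mem_erase.1 hM).1)
    · have := M.card_le_univ
      rwa [Fintype.card_fin] at this
  rw [← Finset.sum_fiberwise_of_maps_to hmaps]
  apply Finset.sum_le_sum
  intro k hk
  have h1 : ∀ M ∈ ((univ : Finset (Finset (Fin n))).erase ∅).filter (fun M => M.card = k),
      D (n - M.card) * ((2*n)^(M.card / 2) * (2 * M.card)^M.card) = D (n - k) * ((2*n)^(k / 2) * (2 * k)^k) := by
    intro M hM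
    rw [(mem_filter.1 hM).2]
  rw [Finset.sum_congr rfl h1, Finset.sum_const, smul_eq_mul]
  apply Nat.mul_le_mul_right
  have h2 : n.choose k = (Finset.powersetCard k (univ : Finset (Fin n))).card := by
    rw [Finset.card_powersetCard, Finset.card_univ, Fintype.card_fin]
  rw [h2]
  apply Finset.card_le_card
  intro M hM
  rw [mem_powersetCard]
  exact ⟨Finset.subset_univ _, (mem_filter.1 hM).2⟩

theorem choose_mul_pow_le (n k : ℕ) : (n.choose k : ℝ) * (2 * (k:ℝ))^k ≤ (2 * Real.exp 1 * n)^k := by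
  have h1 : (n.choose k : ℝ) ≤ (n:ℝ)^k / (k.factorial : ℝ) := Nat.choose_le_pow_div k n
  have h2 : (k:ℝ)^k / (k.factorial : ℝ) ≤ Real.exp k := Real.pow_div_factorial_le_exp (k:ℝ) (by positivity) k
  have h3 : Real.exp (k:ℝ) = (Real.exp 1)^k := by
    rw [← Real.exp_nat_mul, mul_one]
  rw [h3] at h2
  have hf : (0:ℝ) < (k.factorial : ℝ) := by positivity
  calc (n.choose k : ℝ) * (2 * (k:ℝ))^k ≤ ((n:ℝ)^k / (k.factorial : ℝ)) * (2 * (k:ℝ))^k :=
        mul_le_mul_of_nonneg_right h1 (by positivity)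
    _ = (2 * (n:ℝ))^k * ((k:ℝ)^k / (k.factorial : ℝ)) := by rw [mul_pow, mul_pow]; ring
    _ ≤ (2 * (n:ℝ))^k * (Real.exp 1)^k := mul_le_mul_of_nonneg_left h2 (by positivity)
    _ = _ := by rw [← mul_pow]; ring

theorem half_pow_le {x : ℝ} (hx : 1 ≤ x) (k : ℕ) : x^(k/2) ≤ (Real.sqrt x)^k := by
  have h0 : 0 ≤ x := by linarith
  have h1 : x^(k/2) = (Real.sqrt x)^(2*(k/2)) := by
    rw [pow_mul, Real.sq_sqrt h0]
  rw [h1]
  apply pow_le_pow_right₀
  · rw [Real.one_le_sqrt]; exact hx
  · omega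

/-- the small parameter -/
noncomputable def xq (n : ℕ) : ℝ := 2 * Real.exp 1 * n * Real.sqrt (2*n) / (((n:ℝ)/2)^(7/4:ℝ))

theorem xq_tendsto : Tendsto xq atTop (𝓝 0) := by
  have h1 : ∀ᶠ n : ℕ in atTop, xq n = (2 * Real.exp 1 * Real.sqrt 2 * 2^(7/4:ℝ)) * (n:ℝ)^(-(1/4:ℝ)) := by
    filter_upwards [eventually_ge_atTop 1] with n hn
    have hn0 : (0:ℝ) < n := by exact_mod_cast hn
    unfold xq
    rw [Real.sqrt_mul (by norm_num), Real.div_rpow hn0.le (by norm_num)]
    have e1 : Real.sqrt (n:ℝ) = (n:ℝ)^(1/2:ℝ) := Real.sqrt_eq_rpow _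
    rw [e1]
    have e2 : (n:ℝ)^(7/4:ℝ) * (n:ℝ)^(-(1/4:ℝ)) = (n:ℝ) * (n:ℝ)^(1/2:ℝ) := by
      nth_rw 3 [← Real.rpow_one (n:ℝ)]
      rw [← Real.rpow_add hn0, ← Real.rpow_add hn0]
      norm_num
    have h3 : (0:ℝ) < (n:ℝ)^(7/4:ℝ) := by positivity
    have h4 : (0:ℝ) < (2:ℝ)^(7/4:ℝ) := by positivity
    rw [div_div_eq_mul_div, div_eq_iff h3.ne']
    calc 2 * Real.exp 1 * (n:ℝ) * (Real.sqrt 2 * (n:ℝ)^(1/2:ℝ)) * 2^(7/4:ℝ)
        = (2 * Real.exp 1 * Real.sqrt 2 * 2^(7/4:ℝ)) * ((n:ℝ) * (n:ℝ)^(1/2:ℝ)) := by ring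
      _ = (2 * Real.exp 1 * Real.sqrt 2 * 2^(7/4:ℝ)) * ((n:ℝ)^(7/4:ℝ) * (n:ℝ)^(-(1/4:ℝ))) := by rw [e2]
      _ = _ := by ring
  rw [tendsto_congr' h1]
  have h2 : Tendsto (fun n : ℕ => (n:ℝ)^(-(1/4:ℝ))) atTop (𝓝 0) :=
    (tendsto_rpow_neg_atTop (by norm_num : (0:ℝ) < 1/4)).comp tendsto_natCast_atTop_atTop
  have := h2.const_mul (2 * Real.exp 1 * Real.sqrt 2 * 2^(7/4:ℝ))
  rwa [mul_zero] at this

theorem Rn_bound : ∀ᶠ n : ℕ in atTop, (Rn n : ℝ) ≤ 2 * xq n * (D n : ℝ) := by
  have hx : ∀ᶠ n : ℕ in atTop, xq n < 1/2 := xq_tendsto.eventually_lt_const (by norm_num)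
  filter_upwards [D_growth, hx, eventually_ge_atTop 1] with n hD hx hn
  have hn0 : (0:ℝ) < n := by exact_mod_cast hn
  have hn1 : (1:ℝ) ≤ n := by exact_mod_cast hn
  have hx0 : 0 ≤ xq n := by unfold xq; positivity
  have h1 : (Rn n : ℝ) ≤ ((∑ k ∈ Finset.Icc 1 n,
    n.choose k * (D (n - k) * ((2*n)^(k / 2) * (2 * k)^k)) : ℕ) : ℝ) := by exact_mod_cast Rn_le' n
  have h2 : ∀ k ∈ Finset.Icc 1 n, ((n.choose k * (D (n - k) * ((2*n)^(k / 2) * (2 * k)^k)) : ℕ) : ℝ) ≤
      (D n : ℝ) * (xq n)^k := by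
    intro k hk
    have hk2 := (mem_Icc.1 hk).2
    have a1 := hD k hk2
    have a2 := choose_mul_pow_le n k
    have a3 := half_pow_le (x := 2*(n:ℝ)) (by linarith) k
    have hp : (0:ℝ) < ((n:ℝ)/2)^(7/4:ℝ) := by positivity
    push_cast
    have hDn : (0:ℝ) ≤ (D (n-k) : ℝ) := by positivity
    calc (n.choose k : ℝ) * ((D (n-k) : ℝ) * ((2*(n:ℝ))^(k/2) * (2*(k:ℝ))^k))
        = (D (n-k) : ℝ) * (((n.choose k : ℝ) * (2*(k:ℝ))^k) * (2*(n:ℝ))^(k/2)) := by ring
      _ ≤ (D (n-k) : ℝ) * ((2 * Real.exp 1 * n)^k * (Real.sqrt (2*(n:ℝ)))^k) := by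
          apply mul_le_mul_of_nonneg_left _ hDn
          exact mul_le_mul a2 a3 (by positivity) (by positivity)
      _ = ((D (n-k) : ℝ) * (((n:ℝ)/2)^(7/4:ℝ))^k) * (xq n)^k := by
          unfold xq
          rw [div_pow, mul_pow (2 * Real.exp 1 * (n:ℝ))]
          field_simp
      _ ≤ (D n : ℝ) * (xq n)^k := mul_le_mul_of_nonneg_right a1 (by positivity)
  have h3 : (Rn n : ℝ) ≤ ∑ k ∈ Finset.Icc 1 n, (D n : ℝ) * (xq n)^k := by
    refine h1.trans ?_
    rw [Nat.cast_sum]
    exact Finset.sum_le_sum h2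
  refine h3.trans ?_
  rw [← Finset.mul_sum]
  have h4 : ∑ k ∈ Finset.Icc 1 n, (xq n)^k ≤ 2 * xq n := by
    have : ∑ k ∈ Finset.Icc 1 n, (xq n)^k = xq n * ∑ k ∈ Finset.range n, (xq n)^k := by
      rw [Finset.mul_sum]
      rw [Finset.range_eq_Ico, Finset.sum_Ico_eq_sum_range]
      rw [← Finset.Ico_succ_right_eq_Icc, Finset.sum_Ico_eq_sum_range]
      simp only [Order.succ_eq_add_one, Nat.add_sub_cancel, Nat.sub_zero]
      apply Finset.sum_congr rfl
      intro i _
      rw [pow_add, pow_one, zero_add]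
    rw [this]
    have h5 : ∑ k ∈ Finset.range n, (xq n)^k ≤ 2 := by
      have hs : Summable (fun k : ℕ => (xq n)^k) := summable_geometric_of_lt_one hx0 (by linarith)
      have := hs.sum_le_tsum (Finset.range n) (fun i _ => by positivity)
      rw [tsum_geometric_of_lt_one hx0 (by linarith)] at this
      refine this.trans ?_
      rw [inv_le_comm₀ (by linarith) (by norm_num)]
      linarith
    nlinarith
  have hDn : (0:ℝ) ≤ (D n : ℝ) := by positivity
  nlinarith [mul_le_mul_of_nonneg_left h4 hDn]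

theorem Rn_small : Tendsto (fun n : ℕ => (Rn n : ℝ) / (D n : ℝ)) atTop (𝓝 0) := by
  have h1 : Tendsto (fun n : ℕ => 2 * xq n) atTop (𝓝 0) := by
    have := xq_tendsto.const_mul 2
    rwa [mul_zero] at this
  refine squeeze_zero' (Eventually.of_forall fun n => by positivity) ?_ h1
  filter_upwards [Rn_bound, D_pos'] with n h2 h3
  rw [div_le_iff₀ h3]
  exact h2

theorem card_invol (n : ℕ) (hn : 1 ≤ n) :
    ((univ : Finset (Equiv.Perm (Fin n))).filter (fun σ => ∀ i, σ (σ i) = i)).card ≤ 2^n * n^(n/2) := by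
  classical
  set I := (univ : Finset (Equiv.Perm (Fin n))).filter (fun σ => ∀ i, σ (σ i) = i) with hI
  let A : Equiv.Perm (Fin n) → Finset (Fin n) := fun σ => univ.filter (fun i => i < σ i)
  have hmaps : ∀ σ ∈ I, A σ ∈ (univ : Finset (Finset (Fin n))) := fun σ _ => mem_univ _
  rw [Finset.card_eq_sum_card_fiberwise hmaps]
  have hcard : (univ : Finset (Finset (Fin n))).card = 2^n := by
    rw [Finset.card_univ, Fintype.card_finset, Fintype.card_fin]
  rw [← hcard, ← smul_eq_mul, ← Finset.sum_const]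
  apply Finset.sum_le_sum
  intro S _
  rcases (I.filter (fun σ => A σ = S)).eq_empty_or_nonempty with h0 | ⟨σ0, hσ0⟩
  · rw [h0]; simp
  · have hS : S.card ≤ n/2 := by
      rw [mem_filter] at hσ0
      obtain ⟨h1, h2⟩ := hσ0
      have hinv : ∀ i, σ0 (σ0 i) = i := (mem_filter.1 h1).2
      have hB : (S.map σ0.toEmbedding).card = S.card := Finset.card_map _
      have hdisj : Disjoint S (S.map σ0.toEmbedding) := by
        rw [Finset.disjoint_left]
        intro i hi hi2
        rw [Finset.mem_map] at hi2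
        obtain ⟨j, hj, hji⟩ := hi2
        rw [← h2] at hi hj
        have hi' : i < σ0 i := (mem_filter.1 hi).2
        have hj' : j < σ0 j := (mem_filter.1 hj).2
        have : σ0 j = i := hji
        rw [← this, hinv] at hi'
        exact absurd hi' (lt_asymm hj')
      have hle : (S ∪ S.map σ0.toEmbedding).card ≤ n := by
        have := (S ∪ S.map σ0.toEmbedding).card_le_univ
        rwa [Fintype.card_fin] at this
      rw [Finset.card_union_of_disjoint hdisj, hB] at hle
      omega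
    have hinj : (I.filter (fun σ => A σ = S)).card ≤ (univ : Finset (S → Fin n)).card := by
      apply Finset.card_le_card_of_injOn (fun σ => fun i : S => σ i) (fun _ _ => mem_univ _)
      intro σ hσ τ hτ hst
      rw [Finset.mem_coe, mem_filter] at hσ hτ
      obtain ⟨h1, h2⟩ := hσ
      obtain ⟨h3, h4⟩ := hτ
      have hσi : ∀ i, σ (σ i) = i := (mem_filter.1 h1).2
      have hτi : ∀ i, τ (τ i) = i := (mem_filter.1 h3).2
      have hσS : ∀ i, i ∈ S ↔ i < σ i := by
        intro i; rw [← h2]; simp [A]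
      have hτS : ∀ i, i ∈ S ↔ i < τ i := by
        intro i; rw [← h4]; simp [A]
      have hag : ∀ i, i ∈ S → σ i = τ i := fun i hi => congrFun hst ⟨i, hi⟩
      ext i
      congr 1
      by_cases hi : i ∈ S
      · exact hag i hi
      · have b1 : σ i ≤ i := not_lt.1 (fun h => hi ((hσS i).2 h))
        have b2 : τ i ≤ i := not_lt.1 (fun h => hi ((hτS i).2 h))
        rcases b1.lt_or_eq with c1 | c1
        · have hj : σ i ∈ S := by rw [hσS, hσi]; exact c1
          have := hag _ hj
          rw [hσi] at this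
          rw [this, hτi, ← this]
        · rcases b2.lt_or_eq with c2 | c2
          · have hj : τ i ∈ S := by rw [hτS, hτi]; exact c2
            have := hag _ hj
            rw [hτi] at this
            have e : σ i = τ i := by
              nth_rw 1 [← this]
              rw [hσi]
            exact e
          · rw [c1, c2]
    refine hinj.trans ?_
    rw [Finset.card_univ, Fintype.card_fun, Fintype.card_fin, Fintype.card_coe]
    exact Nat.pow_le_pow_right hn hS

def swp {α : Type} (x : PP α) : PP α := ⟨(x.1.2, x.1.1), fun i j h1 h2 => x.2 i j h2 h1⟩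

theorem swp_swp {α : Type} (x : PP α) : swp (swp x) = x := rfl

theorem congr_swp {α : Type} (σ : Equiv.Perm α) (x : PP α) : PP.congr σ (swp x) = swp (PP.congr σ x) := rfl

theorem congr_one' {α : Type} (x : PP α) : PP.congr (1 : Equiv.Perm α) x = x := by
  apply Subtype.ext
  apply Prod.ext
  · ext i j; exact Iff.rfl
  · ext i j; exact Iff.rfl

theorem congr_mul' {α : Type} (σ τ : Equiv.Perm α) (x : PP α) :
    PP.congr (σ * τ) x = PP.congr σ (PP.congr τ x) := rfl

theorem congr_fix_iff {n : ℕ} (σ : Equiv.Perm (Fin n)) (x : PP (Fin n)) :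
    PP.congr σ x = x ↔ (InvS σ x.1.1 ∧ InvS σ x.1.2) := by
  constructor
  · intro h
    constructor
    · intro i j
      have h1 : (PP.congr σ x).1.1 = x.1.1 := by rw [h]
      have h2 : (PP.congr σ x).1.1 (σ i) (σ j) ↔ x.1.1 (σ i) (σ j) := by rw [h1]
      rw [← h2]
      show x.1.1 (σ.symm (σ i)) (σ.symm (σ j)) ↔ _
      rw [Equiv.symm_apply_apply, Equiv.symm_apply_apply]
    · intro i j
      have h1 : (PP.congr σ x).1.2 = x.1.2 := by rw [h]
      have h2 : (PP.congr σ x).1.2 (σ i) (σ j) ↔ x.1.2 (σ i) (σ j) := by rw [h1]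
      rw [← h2]
      show x.1.2 (σ.symm (σ i)) (σ.symm (σ j)) ↔ _
      rw [Equiv.symm_apply_apply, Equiv.symm_apply_apply]
  · rintro ⟨h1, h2⟩
    apply Subtype.ext
    apply Prod.ext
    · ext i j
      show x.1.1 (σ.symm i) (σ.symm j) ↔ _
      rw [← h1, Equiv.apply_symm_apply, Equiv.apply_symm_apply]
    · ext i j
      show x.1.2 (σ.symm i) (σ.symm j) ↔ _
      rw [← h2, Equiv.apply_symm_apply, Equiv.apply_symm_apply]

noncomputable def Sn (n : ℕ) : ℕ := ∑ σ : Equiv.Perm (Fin n), Nat.card {x : PP (Fin n) // swp (PP.congr σ x) = x}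

theorem Sn_le (n : ℕ) (hn : 1 ≤ n) : Sn n ≤ 2 * Rn n + 2^n * n^(n/2) * n^n := by
  classical
  have hFin : Fintype (PP (Fin n)) := Fintype.ofFinite _
  have hR : Rn n = ∑ x : PP (Fin n), (((univ : Finset (Equiv.Perm (Fin n))).erase 1).filter (fun σ => PP.congr σ x = x)).card := by
    unfold Rn
    have : ∀ σ ∈ (univ : Finset (Equiv.Perm (Fin n))).erase 1, Nat.card (FixP σ) =
        ∑ x : PP (Fin n), if PP.congr σ x = x then 1 else 0 := by
      intro σ _
      rw [← Finset.card_filter]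
      unfold FixP
      rw [Nat.card_eq_fintype_card, Fintype.card_subtype]
      congr 1
      ext x
      simp only [mem_filter, mem_univ, true_and]
      exact (congr_fix_iff σ x).symm
    rw [Finset.sum_congr rfl this, Finset.sum_comm]
    apply Finset.sum_congr rfl
    intro x _
    rw [Finset.card_filter]
  have hS : Sn n = ∑ x : PP (Fin n), ((univ : Finset (Equiv.Perm (Fin n))).filter (fun σ => swp (PP.congr σ x) = x)).card := by
    unfold Sn
    have : ∀ σ ∈ (univ : Finset (Equiv.Perm (Fin n))), Nat.card {x : PP (Fin n) // swp (PP.congr σ x) = x} =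
        ∑ x : PP (Fin n), if swp (PP.congr σ x) = x then 1 else 0 := by
      intro σ _
      rw [← Finset.card_filter, Nat.card_eq_fintype_card, Fintype.card_subtype]
    rw [Finset.sum_congr rfl this, Finset.sum_comm]
    apply Finset.sum_congr rfl
    intro x _
    rw [Finset.card_filter]
  have hcoset : ∀ x : PP (Fin n), ((univ : Finset (Equiv.Perm (Fin n))).filter (fun σ => swp (PP.congr σ x) = x)).card ≤
      ((univ : Finset (Equiv.Perm (Fin n))).filter (fun σ => PP.congr σ x = x)).card := by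
    intro x
    rcases ((univ : Finset (Equiv.Perm (Fin n))).filter (fun σ => swp (PP.congr σ x) = x)).eq_empty_or_nonempty with h0 | ⟨σ0, hσ0⟩
    · rw [h0]; simp
    · have h0 : swp (PP.congr σ0 x) = x := (mem_filter.1 hσ0).2
      apply Finset.card_le_card_of_injOn (fun σ => σ0⁻¹ * σ)
      · intro σ hσ
        rw [Finset.mem_coe, mem_filter] at hσ ⊢
        refine ⟨mem_univ _, ?_⟩
        have h1 := hσ.2
        have h2 : PP.congr σ x = PP.congr σ0 x := by
          have := h1.trans h0.symm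
          have h3 := congrArg swp this
          exact h3
        show PP.congr (σ0⁻¹ * σ) x = x
        rw [congr_mul', h2, ← congr_mul', inv_mul_cancel, congr_one']
      · intro σ _ τ _ hst
        exact mul_left_cancel hst
  -- set of rigid points with a swap
  set K := (univ : Finset (PP (Fin n))).filter (fun x => ∃ σ : Equiv.Perm (Fin n), (∀ i, σ (σ i) = i) ∧ swp (PP.congr σ x) = x) with hK
  have hpt : ∀ x : PP (Fin n), ((univ : Finset (Equiv.Perm (Fin n))).filter (fun σ => swp (PP.congr σ x) = x)).card ≤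
      2 * (((univ : Finset (Equiv.Perm (Fin n))).erase 1).filter (fun σ => PP.congr σ x = x)).card + (if x ∈ K then 1 else 0) := by
    intro x
    have hins : ((univ : Finset (Equiv.Perm (Fin n))).filter (fun σ => PP.congr σ x = x)).card =
        (((univ : Finset (Equiv.Perm (Fin n))).erase 1).filter (fun σ => PP.congr σ x = x)).card + 1 := by
      rw [← Finset.insert_erase (mem_univ (1 : Equiv.Perm (Fin n))), Finset.filter_insert, if_pos (congr_one' x),
        Finset.card_insert_of_notMem (by simp)]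
      simp
    have hc := hcoset x
    rw [hins] at hc
    rcases Nat.eq_zero_or_pos (((univ : Finset (Equiv.Perm (Fin n))).erase 1).filter (fun σ => PP.congr σ x = x)).card with h0 | h0
    · rw [h0] at hc ⊢
      by_cases hx : x ∈ K
      · rw [if_pos hx]; omega
      · rw [if_neg hx]
        have hemp : ((univ : Finset (Equiv.Perm (Fin n))).filter (fun σ => swp (PP.congr σ x) = x)) = ∅ := by
          rw [Finset.eq_empty_iff_forall_notMem]
          intro σ hσ
          apply hx
          have h1 := (mem_filter.1 hσ).2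
          rw [hK, mem_filter]
          refine ⟨mem_univ _, σ, ?_, h1⟩
          have h2 : PP.congr (σ * σ) x = x := by
            rw [congr_mul']
            have h3 : PP.congr σ x = swp x := by
              have := congrArg swp h1
              exact this
            rw [h3, congr_swp, h1]
          have h4 : σ * σ = 1 := by
            by_contra hne
            have : σ * σ ∈ (((univ : Finset (Equiv.Perm (Fin n))).erase 1).filter (fun σ => PP.congr σ x = x)) := by
              rw [mem_filter, mem_erase]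
              exact ⟨⟨hne, mem_univ _⟩, h2⟩
            rw [Finset.card_eq_zero] at h0
            rw [h0] at this
            simp at this
          intro i
          rw [← Equiv.Perm.mul_apply, h4]; rfl
        rw [hemp]; simp
    · omega
  rw [hS]
  refine (Finset.sum_le_sum (fun x _ => hpt x)).trans ?_
  rw [Finset.sum_add_distrib, ← Finset.mul_sum, ← hR]
  apply Nat.add_le_add_left
  rw [Finset.sum_ite_mem, Finset.univ_inter, Finset.sum_const, smul_eq_mul, mul_one]
  -- count K
  set I := (univ : Finset (Equiv.Perm (Fin n))).filter (fun σ => ∀ i, σ (σ i) = i) with hI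
  have hsub : K ⊆ I.biUnion (fun σ => (univ : Finset (PP (Fin n))).filter (fun x => swp (PP.congr σ x) = x)) := by
    intro x hx
    rw [hK, mem_filter] at hx
    obtain ⟨_, σ, h1, h2⟩ := hx
    rw [Finset.mem_biUnion]
    exact ⟨σ, by rw [hI, mem_filter]; exact ⟨mem_univ _, h1⟩, by rw [mem_filter]; exact ⟨mem_univ _, h2⟩⟩
  refine (Finset.card_le_card hsub).trans ?_
  refine Finset.card_biUnion_le.trans ?_
  have hone : ∀ σ ∈ I, ((univ : Finset (PP (Fin n))).filter (fun x => swp (PP.congr σ x) = x)).card ≤ n^n := by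
    intro σ _
    refine le_trans ?_ (card_setoid_le n)
    have hFS : Fintype (Setoid (Fin n)) := Fintype.ofFinite _
    rw [Nat.card_eq_fintype_card, ← Finset.card_univ]
    apply Finset.card_le_card_of_injOn (fun x => x.1.1) (fun _ _ => mem_univ _)
    intro x hx y hy hxy
    rw [Finset.mem_coe, mem_filter] at hx hy
    have hxy' : x.1.1 = y.1.1 := hxy
    have hx2 : x.1.2 = x.1.1.comap σ.symm := by
      have := congrArg (fun z : PP (Fin n) => z.1.2) hx.2
      exact this.symm
    have hy2 : y.1.2 = y.1.1.comap σ.symm := by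
      have := congrArg (fun z : PP (Fin n) => z.1.2) hy.2
      exact this.symm
    apply Subtype.ext
    apply Prod.ext
    · exact hxy'
    · rw [hx2, hy2, hxy']
  refine (Finset.sum_le_sum hone).trans ?_
  rw [Finset.sum_const, smul_eq_mul]
  exact Nat.mul_le_mul_right _ (card_invol n hn)

theorem Sn_small : Tendsto (fun n : ℕ => (Sn n : ℝ) / (D n : ℝ)) atTop (𝓝 0) := by
  have h1 : Tendsto (fun n : ℕ => 2 * ((Rn n : ℝ) / (D n : ℝ)) + ((1:ℝ)/2)^n) atTop (𝓝 0) := by
    have a1 := Rn_small.const_mul 2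
    have a2 : Tendsto (fun n : ℕ => ((1:ℝ)/2)^n) atTop (𝓝 0) :=
      tendsto_pow_atTop_nhds_zero_of_lt_one (by norm_num) (by norm_num)
    have := a1.add a2
    simpa using this
  refine squeeze_zero' (Eventually.of_forall fun n => by positivity) ?_ h1
  have e1 : ∀ᶠ n : ℕ in atTop, (4:ℝ) ≤ (n:ℝ)^(3/8:ℝ) := by
    have : Tendsto (fun n : ℕ => (n:ℝ)^((3/8:ℝ))) atTop atTop :=
      (tendsto_rpow_atTop (by norm_num)).comp tendsto_natCast_atTop_atTop
    exact this.eventually_ge_atTop 4
  filter_upwards [D_lower, D_pos', e1, eventually_ge_atTop 1] with n hD hDp h4 hn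
  have hn0 : (0:ℝ) < n := by exact_mod_cast hn
  have hn1 : (1:ℝ) ≤ n := by exact_mod_cast hn
  have hS : (Sn n : ℝ) ≤ 2 * (Rn n : ℝ) + 2^n * (n:ℝ)^(n/2) * (n:ℝ)^n := by
    exact_mod_cast Sn_le n hn
  have h2 : (n:ℝ)^(n/2) ≤ ((n:ℝ)^(1/2:ℝ))^n := by
    have := half_pow_le hn1 n
    rwa [Real.sqrt_eq_rpow] at this
  have h3 : 2^n * (n:ℝ)^(n/2) * (n:ℝ)^n ≤ ((1:ℝ)/2)^n * (D n : ℝ) := by
    have b1 : (n:ℝ)^((15/8:ℝ) * n) = ((n:ℝ)^(1/2:ℝ) * n * (n:ℝ)^(3/8:ℝ))^n := by
      rw [Real.rpow_mul hn0.le, Real.rpow_natCast]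
      congr 1
      nth_rw 3 [← Real.rpow_one (n:ℝ)]
      rw [← Real.rpow_add hn0, ← Real.rpow_add hn0]
      norm_num
    calc 2^n * (n:ℝ)^(n/2) * (n:ℝ)^n ≤ 2^n * ((n:ℝ)^(1/2:ℝ))^n * (n:ℝ)^n := by gcongr
      _ = ((1:ℝ)/2)^n * ((n:ℝ)^(1/2:ℝ) * n * 4)^n := by
          rw [← mul_pow, ← mul_pow, ← mul_pow]; congr 1; ring
      _ ≤ ((1:ℝ)/2)^n * ((n:ℝ)^(1/2:ℝ) * n * (n:ℝ)^(3/8:ℝ))^n := by
          gcongr
      _ = ((1:ℝ)/2)^n * (n:ℝ)^((15/8:ℝ) * n) := by rw [b1]
      _ ≤ _ := by gcongr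
  rw [div_le_iff₀ hDp]
  calc (Sn n : ℝ) ≤ 2 * (Rn n : ℝ) + 2^n * (n:ℝ)^(n/2) * (n:ℝ)^n := hS
    _ ≤ 2 * (Rn n : ℝ) + ((1:ℝ)/2)^n * (D n : ℝ) := by linarith
    _ = _ := by
        field_simp

/-- the group acting on pairs -/
noncomputable instance actPP (n : ℕ) : MulAction (Equiv.Perm (Fin n) × ℤˣ) (PP (Fin n)) where
  smul g x := if g.2 = 1 then PP.congr g.1 x else swp (PP.congr g.1 x)
  one_smul x := by
    have h : (1 : Equiv.Perm (Fin n) × ℤˣ).2 = 1 := rfl
    show (if (1 : Equiv.Perm (Fin n) × ℤˣ).2 = 1 then PP.congr (1 : Equiv.Perm (Fin n) × ℤˣ).1 x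
      else swp (PP.congr (1 : Equiv.Perm (Fin n) × ℤˣ).1 x)) = x
    rw [if_pos h]
    exact congr_one' x
  mul_smul g h x := by
    obtain ⟨σ, u⟩ := g
    obtain ⟨τ, v⟩ := h
    show (if u * v = 1 then PP.congr (σ * τ) x else swp (PP.congr (σ * τ) x)) =
      (if u = 1 then PP.congr σ (if v = 1 then PP.congr τ x else swp (PP.congr τ x))
        else swp (PP.congr σ (if v = 1 then PP.congr τ x else swp (PP.congr τ x))))
    have hne : (-1 : ℤˣ) ≠ 1 := by decide
    rcases Int.units_eq_one_or u with rfl | rfl <;> rcases Int.units_eq_one_or v with rfl | rfl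
    · simp [congr_mul']
    · simp [hne, congr_mul', congr_swp]
    · simp [hne, congr_mul', congr_swp]
    · simp [hne, congr_mul', congr_swp, swp_swp]

theorem smul_one_def {n : ℕ} (σ : Equiv.Perm (Fin n)) (x : PP (Fin n)) : (σ, (1:ℤˣ)) • x = PP.congr σ x := if_pos rfl

theorem smul_neg_def {n : ℕ} (σ : Equiv.Perm (Fin n)) (x : PP (Fin n)) : (σ, (-1:ℤˣ)) • x = swp (PP.congr σ x) :=
  if_neg (show ¬ ((-1 : ℤˣ) = 1) by decide)

theorem burnside (n : ℕ) : Nat.card (MulAction.orbitRel.Quotient (Equiv.Perm (Fin n) × ℤˣ) (PP (Fin n))) * (2 * n.factorial) =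
    D n + Rn n + Sn n := by
  classical
  have hFin : Fintype (PP (Fin n)) := Fintype.ofFinite _
  have hFq : Fintype (MulAction.orbitRel.Quotient (Equiv.Perm (Fin n) × ℤˣ) (PP (Fin n))) := Fintype.ofFinite _
  have h := MulAction.sum_card_fixedBy_eq_card_orbits_mul_card_group (Equiv.Perm (Fin n) × ℤˣ) (PP (Fin n))
  have hG : Fintype.card (Equiv.Perm (Fin n) × ℤˣ) = 2 * n.factorial := by
    rw [Fintype.card_prod, Fintype.card_perm, Fintype.card_fin]
    have : Fintype.card ℤˣ = 2 := by decide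
    rw [this, mul_comm]
  rw [hG] at h
  rw [Nat.card_eq_fintype_card]
  have hcongr : Fintype.card (MulAction.orbitRel.Quotient (Equiv.Perm (Fin n) × ℤˣ) (PP (Fin n))) =
    Fintype.card (Quotient (MulAction.orbitRel (Equiv.Perm (Fin n) × ℤˣ) (PP (Fin n)))) := by
    apply Fintype.card_congr
    exact Equiv.refl _
  rw [hcongr, ← h]
  rw [Fintype.sum_prod_type]
  have hterm : ∀ σ : Equiv.Perm (Fin n), ∑ u : ℤˣ, Fintype.card (MulAction.fixedBy (PP (Fin n)) (σ, u)) =
      Nat.card (FixP σ) + Nat.card {x : PP (Fin n) // swp (PP.congr σ x) = x} := by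
    intro σ
    have hu : (univ : Finset ℤˣ) = {1, -1} := by decide
    rw [hu, Finset.sum_insert (by decide), Finset.sum_singleton]
    congr 1
    · rw [← Nat.card_eq_fintype_card]
      apply Nat.card_congr
      apply Equiv.subtypeEquivRight
      intro x
      rw [← congr_fix_iff]
      rfl
    · rw [← Nat.card_eq_fintype_card]
      apply Nat.card_congr
      apply Equiv.subtypeEquivRight
      intro x
      rfl
  rw [Finset.sum_congr rfl (fun σ _ => hterm σ), Finset.sum_add_distrib]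
  congr 1
  unfold Rn
  rw [← Finset.add_sum_erase _ _ (mem_univ (1 : Equiv.Perm (Fin n)))]
  congr 1
  unfold D FixP
  apply Nat.card_congr
  apply Equiv.subtypeUnivEquiv
  intro x
  exact ⟨fun i j => Iff.rfl, fun i j => Iff.rfl⟩

theorem ext_perm {ι Ω : Type*} [Finite ι] (u v : ι → Ω) (h : ∀ i j, u i = u j ↔ v i = v j) :
    ∃ g : Equiv.Perm Ω, ∀ i, g (u i) = v i := by
  obtain ⟨g, hg⟩ := Equiv.Perm.exists_extending_pair
    (fun q : Quotient (Setoid.ker u) => Quotient.lift u (fun a b hab => hab) q)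
    (fun q : Quotient (Setoid.ker u) => Quotient.lift v (fun a b hab => (h a b).1 hab) q)
    (by
      intro a b
      induction a using Quotient.inductionOn
      induction b using Quotient.inductionOn
      intro hab
      exact Quotient.sound hab)
    (by
      intro a b
      induction a using Quotient.inductionOn
      induction b using Quotient.inductionOn
      intro hab
      exact Quotient.sound ((h _ _).2 hab))
  exact ⟨g, fun i => by
    have := hg (Quotient.mk _ i)
    exact this⟩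

theorem same_image {n : ℕ} {X : Type*} (φ ψ : Fin n ↪ X) (h : univ.map φ = univ.map ψ) :
    ∃ σ : Equiv.Perm (Fin n), ∀ i, ψ i = φ (σ i) := by
  have h1 : ∀ i, ∃ j, φ j = ψ i := by
    intro i
    have : ψ i ∈ univ.map φ := by rw [h]; exact Finset.mem_map_of_mem _ (mem_univ _)
    obtain ⟨j, _, hj⟩ := Finset.mem_map.1 this
    exact ⟨j, hj⟩
  choose f hf using h1
  have hinj : Function.Injective f := by
    intro i j hij
    apply ψ.injective
    rw [← hf i, ← hf j, hij]
  exact ⟨Equiv.ofBijective f ((Finite.injective_iff_bijective).1 hinj), fun i => (hf i).symm⟩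

/-- the pair of kernels -/
def KK {n : ℕ} {Ω : Type*} (φ : Fin n ↪ Ω × Ω) : PP (Fin n) :=
  ⟨(Setoid.ker (fun i => (φ i).1), Setoid.ker (fun i => (φ i).2)), fun i j h1 h2 =>
    φ.injective (Prod.ext h1 h2)⟩

theorem KK_surj {n : ℕ} {Ω : Type*} [Infinite Ω] : Function.Surjective (KK : (Fin n ↪ Ω × Ω) → PP (Fin n)) := by
  intro x
  have hemb : ∀ (Q : Type) [Finite Q], Nonempty (Q ↪ Ω) := by
    intro Q _
    have : Fintype Q := Fintype.ofFinite Q
    exact ⟨(Fintype.equivFin Q).toEmbedding.trans (Fin.valEmbedding.trans (Infinite.natEmbedding Ω))⟩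
  obtain ⟨e1⟩ := hemb (Quotient x.1.1)
  obtain ⟨e2⟩ := hemb (Quotient x.1.2)
  refine ⟨⟨fun i => (e1 (Quotient.mk _ i), e2 (Quotient.mk _ i)), ?_⟩, ?_⟩
  · intro i j hij
    simp only [Prod.mk.injEq, EmbeddingLike.apply_eq_iff_eq] at hij
    exact x.2 i j (Quotient.exact hij.1) (Quotient.exact hij.2)
  · apply Subtype.ext
    apply Prod.ext
    · ext i j
      show e1 (Quotient.mk _ i) = e1 (Quotient.mk _ j) ↔ _
      rw [EmbeddingLike.apply_eq_iff_eq]
      exact Quotient.eq
    · ext i j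
      show e2 (Quotient.mk _ i) = e2 (Quotient.mk _ j) ↔ _
      rw [EmbeddingLike.apply_eq_iff_eq]
      exact Quotient.eq

theorem im_surj {n : ℕ} {X : Type*} :
    Function.Surjective (fun φ : Fin n ↪ X => (⟨univ.map φ, by simp⟩ : {s : Finset X // s.card = n})) := by
  rintro ⟨s, hs⟩
  refine ⟨(s.equivFinOfCardEq hs).symm.toEmbedding.trans (Function.Embedding.subtype _), ?_⟩
  apply Subtype.ext
  ext x
  simp only [Finset.mem_map, mem_univ, true_and, Function.Embedding.trans_apply, Equiv.coe_toEmbedding,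
    Function.Embedding.coe_subtype]
  constructor
  · rintro ⟨i, hi⟩
    rw [← hi]
    exact ((s.equivFinOfCardEq hs).symm i).2
  · intro hx
    exact ⟨(s.equivFinOfCardEq hs) ⟨x, hx⟩, by simp⟩

theorem key_iff {n : ℕ} {Ω : Type*} (φ ψ : Fin n ↪ Ω × Ω) :
    (∃ π ∈ wreathS2 Ω, univ.map ψ = (univ.map φ).map π.toEmbedding) ↔
      ∃ g : Equiv.Perm (Fin n) × ℤˣ, g • KK ψ = KK φ := by
  constructor
  · rintro ⟨π, ⟨g, h, hπ⟩, him⟩
    rw [Finset.map_map] at him
    obtain ⟨σ, hσ⟩ := same_image _ _ him.symm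
    have hσ' : ∀ i, ψ (σ.symm i) = π (φ i) := by
      intro i
      rw [hσ]
      simp
    rcases hπ with hπ | hπ
    · refine ⟨(σ, 1), ?_⟩
      rw [smul_one_def]
      apply Subtype.ext
      apply Prod.ext
      · ext i j
        show (ψ (σ.symm i)).1 = (ψ (σ.symm j)).1 ↔ (φ i).1 = (φ j).1
        rw [hσ', hσ', hπ, hπ]
        simp
      · ext i j
        show (ψ (σ.symm i)).2 = (ψ (σ.symm j)).2 ↔ (φ i).2 = (φ j).2
        rw [hσ', hσ', hπ, hπ]
        simp
    · refine ⟨(σ, -1), ?_⟩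
      rw [smul_neg_def]
      apply Subtype.ext
      apply Prod.ext
      · ext i j
        show (ψ (σ.symm i)).2 = (ψ (σ.symm j)).2 ↔ (φ i).1 = (φ j).1
        rw [hσ', hσ', hπ, hπ]
        simp
      · ext i j
        show (ψ (σ.symm i)).1 = (ψ (σ.symm j)).1 ↔ (φ i).2 = (φ j).2
        rw [hσ', hσ', hπ, hπ]
        simp
  · rintro ⟨⟨σ, u⟩, hg⟩
    rcases Int.units_eq_one_or u with rfl | rfl
    · rw [smul_one_def] at hg
      have h1 : ∀ i j, (φ i).1 = (φ j).1 ↔ (ψ (σ.symm i)).1 = (ψ (σ.symm j)).1 := by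
        intro i j
        have : (KK φ).1.1 i j ↔ (PP.congr σ (KK ψ)).1.1 i j := by rw [hg]
        exact this
      have h2 : ∀ i j, (φ i).2 = (φ j).2 ↔ (ψ (σ.symm i)).2 = (ψ (σ.symm j)).2 := by
        intro i j
        have : (KK φ).1.2 i j ↔ (PP.congr σ (KK ψ)).1.2 i j := by rw [hg]
        exact this
      obtain ⟨g, hg'⟩ := ext_perm _ _ h1
      obtain ⟨h, hh'⟩ := ext_perm _ _ h2
      refine ⟨Equiv.prodCongr g h, ⟨g, h, Or.inl fun x => rfl⟩, ?_⟩
      have e : ∀ i, ψ (σ.symm i) = (Equiv.prodCongr g h) (φ i) := by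
        intro i
        apply Prod.ext
        · exact (hg' i).symm
        · exact (hh' i).symm
      ext x
      simp only [Finset.mem_map, mem_univ, true_and, Equiv.coe_toEmbedding]
      constructor
      · rintro ⟨i, hi⟩
        refine ⟨φ (σ i), ⟨σ i, rfl⟩, ?_⟩
        rw [← e, Equiv.symm_apply_apply, hi]
      · rintro ⟨y, ⟨i, rfl⟩, hi⟩
        exact ⟨σ.symm i, by rw [e, hi]⟩
    · rw [smul_neg_def] at hg
      have h1 : ∀ i j, (φ i).2 = (φ j).2 ↔ (ψ (σ.symm i)).1 = (ψ (σ.symm j)).1 := by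
        intro i j
        have : (KK φ).1.2 i j ↔ (swp (PP.congr σ (KK ψ))).1.2 i j := by rw [hg]
        exact this
      have h2 : ∀ i j, (φ i).1 = (φ j).1 ↔ (ψ (σ.symm i)).2 = (ψ (σ.symm j)).2 := by
        intro i j
        have : (KK φ).1.1 i j ↔ (swp (PP.congr σ (KK ψ))).1.1 i j := by rw [hg]
        exact this
      obtain ⟨g, hg'⟩ := ext_perm _ _ h1
      obtain ⟨h, hh'⟩ := ext_perm _ _ h2
      refine ⟨(Equiv.prodComm Ω Ω).trans (Equiv.prodCongr g h), ⟨g, h, Or.inr fun x => rfl⟩, ?_⟩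
      have e : ∀ i, ψ (σ.symm i) = ((Equiv.prodComm Ω Ω).trans (Equiv.prodCongr g h)) (φ i) := by
        intro i
        apply Prod.ext
        · exact (hg' i).symm
        · exact (hh' i).symm
      ext x
      simp only [Finset.mem_map, mem_univ, true_and, Equiv.coe_toEmbedding]
      constructor
      · rintro ⟨i, hi⟩
        refine ⟨φ (σ i), ⟨σ i, rfl⟩, ?_⟩
        rw [← e, Equiv.symm_apply_apply, hi]
      · rintro ⟨y, ⟨i, rfl⟩, hi⟩
        exact ⟨σ.symm i, by rw [e, hi]⟩

theorem orbit_equiv {X : Type*} (G : Subgroup (Equiv.Perm X)) (n : ℕ) :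
    Equivalence (fun s t : {s : Finset X // s.card = n} => ∃ π ∈ G, t.1 = s.1.map π.toEmbedding) where
  refl s := ⟨1, G.one_mem, by ext x; rw [Finset.mem_map_equiv]; exact Iff.rfl⟩
  symm := by
    rintro s t ⟨π, hπ, h⟩
    refine ⟨π⁻¹, G.inv_mem hπ, ?_⟩
    rw [h, Finset.map_map]
    ext x; simp
  trans := by
    rintro s t u ⟨π, hπ, h⟩ ⟨ρ, hρ, h'⟩
    refine ⟨ρ * π, G.mul_mem hρ hπ, ?_⟩
    rw [h', h, Finset.map_map]
    congr 1

theorem link {Ω : Type*} [Infinite Ω] (n : ℕ) : orbitCount (wreathS2 Ω) n =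
    Nat.card (MulAction.orbitRel.Quotient (Equiv.Perm (Fin n) × ℤˣ) (PP (Fin n))) := by
  unfold orbitCount
  let q1 : (Fin n ↪ Ω × Ω) → Quot (fun s t : {s : Finset (Ω × Ω) // s.card = n} =>
      ∃ π ∈ wreathS2 Ω, t.1 = s.1.map π.toEmbedding) := fun φ => Quot.mk _ ⟨univ.map φ, by simp⟩
  let q2 : (Fin n ↪ Ω × Ω) → MulAction.orbitRel.Quotient (Equiv.Perm (Fin n) × ℤˣ) (PP (Fin n)) :=
    fun φ => Quotient.mk _ (KK φ)
  have h1 : Function.Surjective q1 := by
    intro y
    induction y using Quot.inductionOn with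
    | h s =>
      obtain ⟨φ, hφ⟩ := im_surj s
      exact ⟨φ, by simp only [q1]; rw [← hφ]⟩
  have h2 : Function.Surjective q2 := by
    intro y
    induction y using Quotient.inductionOn with
    | h x =>
      obtain ⟨φ, hφ⟩ := KK_surj (Ω := Ω) x
      exact ⟨φ, by simp only [q2]; rw [hφ]⟩
  have hker : Setoid.ker q1 = Setoid.ker q2 := by
    ext φ ψ
    rw [Setoid.ker_def, Setoid.ker_def]
    simp only [q1, q2]
    rw [(orbit_equiv (wreathS2 Ω) n).quot_mk_eq_iff, Quotient.eq, MulAction.orbitRel_apply, MulAction.mem_orbit_iff]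
    exact key_iff φ ψ
  rw [Nat.card_congr (Setoid.quotientKerEquivOfSurjective q1 h1).symm,
    Nat.card_congr (Setoid.quotientKerEquivOfSurjective q2 h2).symm, hker]

theorem main_count {Ω : Type*} [Infinite Ω] (n : ℕ) : orbitCount (wreathS2 Ω) n * (2 * n.factorial) = D n + Rn n + Sn n := by
  rw [link, burnside]

noncomputable def tt (n a : ℕ) : ℝ := (a:ℝ)^n / (a.factorial : ℝ)

theorem tt_nonneg (n a : ℕ) : 0 ≤ tt n a := by unfold tt; positivity

/-- Dobinski -/
theorem hasSum_bell (n : ℕ) : HasSum (tt n) (Real.exp 1 * (Nat.bell n : ℝ)) := by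
  induction n using Nat.strong_induction_on with
  | _ n ih =>
    rcases n with _ | n
    · rw [Nat.bell_zero, Nat.cast_one, mul_one]
      have h : HasSum (fun n : ℕ => (1:ℝ)^n / (n.factorial : ℝ)) (Real.exp 1) := by
        rw [Real.exp_eq_exp_ℝ]
        exact NormedSpace.expSeries_div_hasSum_exp (1:ℝ)
      convert h using 1
      ext a
      unfold tt
      rw [pow_zero, one_pow]
    · have h1 : HasSum (fun b : ℕ => ∑ m ∈ Finset.HasAntidiagonal.antidiagonal n, (n.choose m.1 : ℝ) * tt m.2 b)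
          (∑ m ∈ Finset.HasAntidiagonal.antidiagonal n, (n.choose m.1 : ℝ) * (Real.exp 1 * (Nat.bell m.2 : ℝ))) := by
        apply hasSum_sum
        intro m hm
        have : m.1 + m.2 = n := HasAntidiagonal.mem_antidiagonal.1 hm
        exact (ih m.2 (by omega)).mul_left _
      have h2 : ∑ m ∈ Finset.HasAntidiagonal.antidiagonal n, (n.choose m.1 : ℝ) * (Real.exp 1 * (Nat.bell m.2 : ℝ)) =
          Real.exp 1 * (Nat.bell (n+1) : ℝ) := by
        rw [Nat.bell_succ']
        push_cast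
        rw [Finset.mul_sum]
        apply Finset.sum_congr rfl
        intro m _
        ring
      rw [h2] at h1
      have hinj : Function.Injective Nat.succ := Nat.succ_injective
      rw [← hinj.hasSum_iff]
      · convert h1 using 1
        ext b
        simp only [Function.comp, Nat.succ_eq_add_one]
        unfold tt
        have hp : ((b + 1 : ℕ) : ℝ)^(n+1) / ((b+1).factorial : ℝ) = ((b:ℝ) + 1)^n / (b.factorial : ℝ) := by
          rw [Nat.factorial_succ]
          push_cast
          have : (0:ℝ) < (b.factorial : ℝ) := by positivity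
          field_simp
          ring
        rw [hp, add_comm (b:ℝ) 1, (Commute.all (1:ℝ) (b:ℝ)).add_pow', Finset.sum_div]
        apply Finset.sum_congr rfl
        intro m _
        rw [one_pow, one_mul, nsmul_eq_mul]
        ring
      · intro x hx
        have : x = 0 := by
          by_contra h0
          exact hx ⟨x - 1, by simp only [Nat.succ_eq_add_one]; omega⟩
        rw [this]
        unfold tt
        simp

theorem tt_le_bell (n a : ℕ) : tt n a ≤ Real.exp 1 * (Nat.bell n : ℝ) :=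
  le_hasSum (hasSum_bell n) a (fun b _ => tt_nonneg n b)

/-- pointwise upper bound -/
theorem wt_le (n a b : ℕ) : wt n (a, b) ≤ Real.exp (-((n:ℝ) * (n - 1) / (2 * ((a:ℝ) * b)))) * (tt n a * tt n b) := by
  unfold wt tt
  simp only
  have hf : (0:ℝ) < (a.factorial : ℝ) * (b.factorial : ℝ) := by positivity
  have key : (((a * b).descFactorial n : ℕ) : ℝ) ≤ Real.exp (-((n:ℝ) * (n - 1) / (2 * ((a:ℝ) * b)))) * ((a:ℝ)^n * (b:ℝ)^n) := by
    rcases Nat.eq_zero_or_pos (a * b) with h0 | h0
    · rw [h0]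
      have hab : (a:ℝ) * b = 0 := by exact_mod_cast h0
      rw [← mul_pow, hab, mul_zero, div_zero, neg_zero, Real.exp_zero, one_mul]
      have := Nat.descFactorial_le_pow 0 n
      exact_mod_cast this
    · have hs : (0:ℝ) < (a:ℝ) * b := by exact_mod_cast h0
      set s : ℝ := (a:ℝ) * b with hsdef
      have hsN : ((a * b : ℕ) : ℝ) = s := by push_cast; rfl
      have ind : ∀ m : ℕ, (((a * b).descFactorial m : ℕ) : ℝ) ≤ Real.exp (-((m:ℝ) * (m - 1) / (2 * s))) * s^m := by
        intro m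
        induction m with
        | zero => simp
        | succ m ih =>
          rw [Nat.descFactorial_succ]
          by_cases hm : m ≤ a * b
          · push_cast [Nat.cast_sub hm]
            have e1 : ((a:ℝ) * b - m) ≤ s * Real.exp (-((m:ℝ)/s)) := by
              have := Real.add_one_le_exp (-((m:ℝ)/s))
              calc ((a:ℝ) * b - m) = s * (-((m:ℝ)/s) + 1) := by rw [← hsdef]; field_simp; ring
                _ ≤ _ := mul_le_mul_of_nonneg_left this hs.le
            have e0 : 0 ≤ ((a:ℝ) * b - m) := by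
              have : (m:ℝ) ≤ ((a * b : ℕ) : ℝ) := by exact_mod_cast hm
              rw [hsN] at this
              linarith
            calc ((a:ℝ) * b - m) * (((a * b).descFactorial m : ℕ) : ℝ)
                ≤ (s * Real.exp (-((m:ℝ)/s))) * (Real.exp (-((m:ℝ) * (m - 1) / (2 * s))) * s^m) :=
                  mul_le_mul e1 ih (by positivity) (by positivity)
              _ = (Real.exp (-((m:ℝ)/s)) * Real.exp (-((m:ℝ) * (m - 1) / (2 * s)))) * s^(m+1) := by ring
              _ = _ := by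
                  rw [← Real.exp_add]
                  congr 2
                  field_simp
                  ring
          · have : a * b - m = 0 := by omega
            rw [this]
            push_cast
            rw [zero_mul]
            positivity
      have := ind n
      rwa [hsdef, mul_pow, ← hsdef] at this
  calc (((a * b).descFactorial n : ℕ) : ℝ) / ((a.factorial : ℝ) * (b.factorial : ℝ))
      ≤ (Real.exp (-((n:ℝ) * (n - 1) / (2 * ((a:ℝ) * b)))) * ((a:ℝ)^n * (b:ℝ)^n)) / ((a.factorial : ℝ) * (b.factorial : ℝ)) :=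
        div_le_div_of_nonneg_right key hf.le
    _ = _ := by
        field_simp

theorem wt_le' (n a b : ℕ) : wt n (a, b) ≤ tt n a * tt n b := by
  have h := wt_le n a b
  have hp : 0 ≤ tt n a * tt n b := mul_nonneg (tt_nonneg _ _) (tt_nonneg _ _)
  refine h.trans ?_
  have h1 : Real.exp (-((n:ℝ) * (n - 1) / (2 * ((a:ℝ) * b)))) ≤ 1 := by
    rw [Real.exp_le_one_iff, neg_nonpos]
    rcases Nat.eq_zero_or_pos n with h0 | h0
    · rw [h0]; simp
    · have : (1:ℝ) ≤ n := by exact_mod_cast h0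
      have : 0 ≤ (n:ℝ) - 1 := by linarith
      positivity
  nlinarith

/-- pointwise lower bound -/
theorem le_wt (n a b : ℕ) (hab : 2 * n ≤ a * b) :
    Real.exp (-((n:ℝ)^2 / (2 * ((a:ℝ) * b)) + (n:ℝ)^3 / ((a:ℝ) * b)^2)) * (tt n a * tt n b) ≤ wt n (a, b) := by
  rcases Nat.eq_zero_or_pos n with hn0 | hn0
  · subst hn0
    unfold wt tt
    simp
    apply le_of_eq
    ring
  have h0 : 0 < a * b := by omega
  unfold wt tt
  simp only
  have hf : (0:ℝ) < (a.factorial : ℝ) * (b.factorial : ℝ) := by positivity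
  have hs : (0:ℝ) < (a:ℝ) * b := by exact_mod_cast h0
  set s : ℝ := (a:ℝ) * b with hsdef
  have hsN : ((a * b : ℕ) : ℝ) = s := by push_cast; rfl
  have h2n : 2 * (n:ℝ) ≤ s := by rw [← hsN]; exact_mod_cast hab
  have ind : ∀ m : ℕ, m ≤ n → Real.exp (-((m:ℝ)^2 / (2 * s) + (m:ℝ)^3 / s^2)) * s^m ≤ (((a * b).descFactorial m : ℕ) : ℝ) := by
    intro m
    induction m with
    | zero => intro _; simp
    | succ m ih =>
      intro hmn
      have ih' := ih (by omega)
      rw [Nat.descFactorial_succ]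
      have hm : m ≤ a * b := by omega
      push_cast [Nat.cast_sub hm]
      have hms : (m:ℝ)/s ≤ 1/2 := by
        rw [div_le_div_iff₀ hs (by norm_num)]
        have : (m:ℝ) ≤ n := by
          have : m ≤ n := by omega
          exact_mod_cast this
        linarith
      have hm0 : 0 ≤ (m:ℝ)/s := by positivity
      have e1 : s * Real.exp (-((m:ℝ)/s + ((m:ℝ)/s)^2)) ≤ ((a:ℝ) * b - m) := by
        have : Real.exp (-((m:ℝ)/s + ((m:ℝ)/s)^2)) ≤ 1 - (m:ℝ)/s := by
          set y := (m:ℝ)/s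
          rw [Real.exp_neg, inv_le_comm₀ (Real.exp_pos _) (by linarith)]
          have h3 := Real.quadratic_le_exp_of_nonneg (x := y + y^2) (by positivity)
          refine le_trans ?_ h3
          rw [inv_le_iff_one_le_mul₀ (by linarith)]
          nlinarith [pow_nonneg hm0 2, pow_nonneg hm0 3, pow_nonneg hm0 4, mul_nonneg hm0 (sub_nonneg.2 hms),
            mul_nonneg (pow_nonneg hm0 2) (sub_nonneg.2 hms), mul_nonneg (pow_nonneg hm0 3) (sub_nonneg.2 hms)]
        calc s * Real.exp (-((m:ℝ)/s + ((m:ℝ)/s)^2)) ≤ s * (1 - (m:ℝ)/s) := mul_le_mul_of_nonneg_left this hs.le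
          _ = _ := by rw [← hsdef]; field_simp
      have e2 : Real.exp (-((((m+1:ℕ):ℝ))^2 / (2 * s) + (((m+1:ℕ):ℝ))^3 / s^2)) * s^(m+1) ≤
          (s * Real.exp (-((m:ℝ)/s + ((m:ℝ)/s)^2))) * (Real.exp (-((m:ℝ)^2 / (2 * s) + (m:ℝ)^3 / s^2)) * s^m) := by
        have : (s * Real.exp (-((m:ℝ)/s + ((m:ℝ)/s)^2))) * (Real.exp (-((m:ℝ)^2 / (2 * s) + (m:ℝ)^3 / s^2)) * s^m)
            = Real.exp (-((m:ℝ)/s + ((m:ℝ)/s)^2) + -((m:ℝ)^2 / (2 * s) + (m:ℝ)^3 / s^2)) * s^(m+1) := by
          rw [Real.exp_add]; ring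
        rw [this]
        apply mul_le_mul_of_nonneg_right _ (by positivity)
        apply Real.exp_le_exp.2
        have e3 : (((m+1:ℕ):ℝ))^2 / (2 * s) + (((m+1:ℕ):ℝ))^3 / s^2 - (((m:ℝ)/s + ((m:ℝ)/s)^2) + ((m:ℝ)^2 / (2 * s) + (m:ℝ)^3 / s^2))
            = 1/(2*s) + (2 * (m:ℝ)^2 + 3 * m + 1)/s^2 := by
          push_cast
          field_simp
          ring
        have e4 : 0 ≤ 1/(2*s) + (2 * (m:ℝ)^2 + 3 * m + 1)/s^2 := by positivity
        linarith
      push_cast at e2
      calc Real.exp (-(((m:ℝ)+1)^2 / (2 * s) + ((m:ℝ)+1)^3 / s^2)) * s^(m+1)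
          ≤ (s * Real.exp (-((m:ℝ)/s + ((m:ℝ)/s)^2))) * (Real.exp (-((m:ℝ)^2 / (2 * s) + (m:ℝ)^3 / s^2)) * s^m) := e2
        _ ≤ ((a:ℝ) * b - m) * (((a * b).descFactorial m : ℕ) : ℝ) := mul_le_mul e1 ih' (by positivity) (by
              have : (m:ℝ) ≤ s := by rw [← hsN]; exact_mod_cast hm
              linarith)
  have key := ind n le_rfl
  calc Real.exp (-((n:ℝ)^2 / (2 * s) + (n:ℝ)^3 / s^2)) * ((a:ℝ)^n / (a.factorial : ℝ) * ((b:ℝ)^n / (b.factorial : ℝ)))
      = (Real.exp (-((n:ℝ)^2 / (2 * s) + (n:ℝ)^3 / s^2)) * s^n) / ((a.factorial : ℝ) * (b.factorial : ℝ)) := by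
        rw [hsdef, mul_pow]
        ring
    _ ≤ _ := div_le_div_of_nonneg_right key hf.le

section tail
variable {n : ℕ} {r : ℝ}

theorem up_ratio (hr : r * Real.exp r = n) (hr0 : 0 < r) {δ : ℝ} (hδ : 0 < δ) (hδ1 : δ ≤ 1) (a : ℕ)
    (ha : Real.exp r * (1 + δ/2) ≤ a) : tt n (a+1) ≤ Real.exp (-(r*δ/3)) * tt n a := by
  have he : 0 < Real.exp r := Real.exp_pos _
  have ha0 : (0:ℝ) < a := lt_of_lt_of_le (by positivity) ha
  have hae : Real.exp r ≤ a := le_trans (by nlinarith) ha
  unfold tt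
  have h1 : ((a + 1 : ℕ) : ℝ)^n ≤ (a:ℝ)^n * Real.exp (n / a) := by
    have : ((a + 1 : ℕ) : ℝ) ≤ a * Real.exp (1 / a) := by
      have := Real.add_one_le_exp (1 / (a:ℝ))
      push_cast
      calc (a:ℝ) + 1 = a * (1/(a:ℝ) + 1) := by field_simp; ring
        _ ≤ _ := mul_le_mul_of_nonneg_left this ha0.le
    calc ((a + 1 : ℕ) : ℝ)^n ≤ (a * Real.exp (1 / a))^n := pow_le_pow_left₀ (by positivity) this n
      _ = (a:ℝ)^n * Real.exp (n / a) := by
          rw [mul_pow, ← Real.exp_nat_mul]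
          congr 2
          ring
  have h2 : (n:ℝ) / a ≤ r / (1 + δ/2) := by
    rw [← hr, div_le_div_iff₀ ha0 (by positivity)]
    have := mul_le_mul_of_nonneg_left ha hr0.le
    nlinarith
  have h3 : r / (1 + δ/2) ≤ r - r*δ/3 := by
    rw [div_le_iff₀ (by positivity)]
    nlinarith [mul_pos hr0 hδ]
  have h4 : Real.exp (n / a) ≤ Real.exp r * Real.exp (-(r*δ/3)) := by
    rw [← Real.exp_add]
    apply Real.exp_le_exp.2
    linarith
  rw [Nat.factorial_succ]
  push_cast
  have hf : (0:ℝ) < (a.factorial : ℝ) := by positivity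
  push_cast at h1
  rw [mul_div_assoc', div_le_div_iff₀ (by positivity) hf]
  calc ((a:ℝ)+1)^n * (a.factorial : ℝ) ≤ ((a:ℝ)^n * (Real.exp r * Real.exp (-(r*δ/3)))) * (a.factorial : ℝ) := by
        apply mul_le_mul_of_nonneg_right _ hf.le
        exact h1.trans (mul_le_mul_of_nonneg_left h4 (by positivity))
    _ ≤ ((a:ℝ)^n * ((a + 1) * Real.exp (-(r*δ/3)))) * (a.factorial : ℝ) := by
        gcongr
        linarith
    _ = _ := by ring

theorem low_ratio (hr : r * Real.exp r = n) (hr0 : 0 < r) {δ : ℝ} (hδ : 0 < δ) (hδ1 : δ ≤ 1) (a : ℕ)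
    (ha : (a:ℝ) + 1 ≤ Real.exp r * (1 - δ/2)) : tt n a ≤ Real.exp (-(r*δ/3)) * tt n (a+1) := by
  have he : 0 < Real.exp r := Real.exp_pos _
  have ha0 : (0:ℝ) ≤ a := by positivity
  have hae : (a:ℝ) + 1 ≤ Real.exp r := le_trans ha (by nlinarith)
  unfold tt
  have h1 : (a:ℝ)^n ≤ ((a:ℝ) + 1)^n * Real.exp (-(n / (a + 1))) := by
    have : (a:ℝ) ≤ (a + 1) * Real.exp (-(1 / ((a:ℝ)+1))) := by
      have := Real.add_one_le_exp (-(1 / ((a:ℝ) + 1)))
      calc (a:ℝ) = (a + 1) * (-(1/((a:ℝ)+1)) + 1) := by field_simp; ring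
        _ ≤ _ := mul_le_mul_of_nonneg_left this (by positivity)
    calc (a:ℝ)^n ≤ ((a + 1) * Real.exp (-(1 / ((a:ℝ)+1))))^n := pow_le_pow_left₀ ha0 this n
      _ = _ := by
          rw [mul_pow, ← Real.exp_nat_mul]
          congr 2
          ring
  have h2 : r * (1 + δ/2) ≤ (n:ℝ) / (a + 1) := by
    rw [← hr, le_div_iff₀ (by positivity)]
    have h5 := mul_le_mul_of_nonneg_left ha hr0.le
    have h6 : 0 ≤ r * (1 + δ/2) := by positivity
    calc r * (1 + δ/2) * ((a:ℝ)+1) ≤ r * (1 + δ/2) * (Real.exp r * (1 - δ/2)) := mul_le_mul_of_nonneg_left ha h6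
      _ = r * Real.exp r * (1 - δ^2/4) := by ring
      _ ≤ r * Real.exp r * 1 := by
          apply mul_le_mul_of_nonneg_left _ (by positivity)
          nlinarith
      _ = _ := by ring
  have h4 : Real.exp (-(n / (a+1))) ≤ Real.exp (-r) * Real.exp (-(r*δ/3)) := by
    rw [← Real.exp_add]
    apply Real.exp_le_exp.2
    nlinarith [mul_pos hr0 hδ]
  rw [Nat.factorial_succ]
  push_cast
  have hf : (0:ℝ) < (a.factorial : ℝ) := by positivity
  rw [mul_div_assoc', div_le_div_iff₀ hf (by positivity)]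
  calc (a:ℝ)^n * (((a:ℝ) + 1) * (a.factorial : ℝ))
      ≤ (((a:ℝ) + 1)^n * (Real.exp (-r) * Real.exp (-(r*δ/3)))) * (((a:ℝ) + 1) * (a.factorial : ℝ)) := by
        apply mul_le_mul_of_nonneg_right _ (by positivity)
        exact h1.trans (mul_le_mul_of_nonneg_left h4 (by positivity))
    _ ≤ (((a:ℝ) + 1)^n * (Real.exp (-r) * Real.exp (-(r*δ/3)))) * (Real.exp r * (a.factorial : ℝ)) := by
        gcongr
    _ = _ := by
        have : Real.exp (-r) * Real.exp r = 1 := by rw [← Real.exp_add]; simp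
        linear_combination ((a:ℝ) + 1)^n * Real.exp (-(r*δ/3)) * (a.factorial : ℝ) * this

theorem up_iter (hr : r * Real.exp r = n) (hr0 : 0 < r) {δ : ℝ} (hδ : 0 < δ) (hδ1 : δ ≤ 1) (a m : ℕ)
    (ha : Real.exp r * (1 + δ/2) ≤ a) : tt n (a+m) ≤ (Real.exp (-(r*δ/3)))^m * tt n a := by
  induction m with
  | zero => simp
  | succ m ih =>
    have h1 := up_ratio hr hr0 hδ hδ1 (a + m) (by push_cast; linarith [(Nat.cast_nonneg m : (0:ℝ) ≤ m)])
    rw [show a + (m + 1) = a + m + 1 by ring, pow_succ']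
    calc tt n (a + m + 1) ≤ Real.exp (-(r*δ/3)) * tt n (a + m) := h1
      _ ≤ Real.exp (-(r*δ/3)) * ((Real.exp (-(r*δ/3)))^m * tt n a) := mul_le_mul_of_nonneg_left ih (Real.exp_pos _).le
      _ = _ := by ring

theorem low_iter (hr : r * Real.exp r = n) (hr0 : 0 < r) {δ : ℝ} (hδ : 0 < δ) (hδ1 : δ ≤ 1) (a m : ℕ)
    (ha : (a:ℝ) + m ≤ Real.exp r * (1 - δ/2)) : tt n a ≤ (Real.exp (-(r*δ/3)))^m * tt n (a+m) := by
  induction m with
  | zero => simp
  | succ m ih =>
    push_cast at ha
    have h1 := low_ratio hr hr0 hδ hδ1 (a + m) (by push_cast; linarith)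
    rw [show a + (m + 1) = a + m + 1 by ring, pow_succ]
    calc tt n a ≤ (Real.exp (-(r*δ/3)))^m * tt n (a + m) := ih (by linarith)
      _ ≤ (Real.exp (-(r*δ/3)))^m * (Real.exp (-(r*δ/3)) * tt n (a + m + 1)) :=
          mul_le_mul_of_nonneg_left h1 (by positivity)
      _ = _ := by ring

/-- restriction to the complement of the window -/
noncomputable def uu (n : ℕ) (r δ : ℝ) (a : ℕ) : ℝ :=
  open Classical in if |(a:ℝ) - Real.exp r| ≤ Real.exp r * δ then 0 else tt n a

theorem uu_nonneg (n : ℕ) (r δ : ℝ) (a : ℕ) : 0 ≤ uu n r δ a := by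
  unfold uu
  split_ifs
  · exact le_rfl
  · exact tt_nonneg _ _

theorem uu_le (n : ℕ) (r δ : ℝ) (a : ℕ) : uu n r δ a ≤ tt n a := by
  unfold uu
  split_ifs
  · exact tt_nonneg _ _
  · exact le_rfl

theorem uu_summable (n : ℕ) (r δ : ℝ) : Summable (uu n r δ) :=
  Summable.of_nonneg_of_le (uu_nonneg n r δ) (uu_le n r δ) (hasSum_bell n).summable

theorem tail_bound (hr : r * Real.exp r = n) (hr0 : 0 < r) {δ : ℝ} (hδ : 0 < δ) (hδ1 : δ ≤ 1) :
    ∑' a, uu n r δ a ≤ 2 * Real.exp (-(r*δ/3) * (Real.exp r * δ/2 - 1)) * (Real.exp 1 * (Nat.bell n : ℝ)) := by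
  have he : 0 < Real.exp r := Real.exp_pos _
  set m : ℕ := ⌊Real.exp r * δ/2⌋₊ with hm
  have hm1 : (m:ℝ) ≤ Real.exp r * δ/2 := Nat.floor_le (by positivity)
  have hm2 : Real.exp r * δ/2 < m + 1 := Nat.lt_floor_add_one _
  set q : ℝ := Real.exp (-(r*δ/3)) with hq
  have hq0 : 0 < q := Real.exp_pos _
  set T : ℝ := Real.exp 1 * (Nat.bell n : ℝ) with hT
  have hsT : HasSum (tt n) T := hasSum_bell n
  have hinj : Function.Injective (fun a : ℕ => a + m) := fun a b h => by simpa using h
  -- first shifted sum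
  let g1 : ℕ → ℝ := fun a => if m ≤ a then tt n (a - m) else 0
  have hg1 : HasSum g1 T := by
    rw [← hinj.hasSum_iff]
    · convert hsT using 1
      ext a
      simp [g1]
    · intro x hx
      have : ¬ m ≤ x := fun h => hx ⟨x - m, by simp only; omega⟩
      simp only [g1, if_neg this]
  have hs2 : Summable (fun a => tt n (a + m)) := hsT.summable.comp_injective hinj
  have hg2 : ∑' a, tt n (a + m) ≤ T := by
    rw [← hsT.tsum_eq]
    exact tsum_comp_le_tsum_of_inj hsT.summable (fun a => tt_nonneg n a) hinj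
  have hpt : ∀ a, uu n r δ a ≤ q^m * g1 a + q^m * tt n (a + m) := by
    intro a
    have hg1n : 0 ≤ q^m * g1 a := by
      simp only [g1]
      split_ifs
      · exact mul_nonneg (by positivity) (tt_nonneg _ _)
      · simp
    have hg2n : 0 ≤ q^m * tt n (a + m) := mul_nonneg (by positivity) (tt_nonneg _ _)
    unfold uu
    split_ifs with hw
    · linarith
    · push Not at hw
      rcases lt_abs.1 hw with h | h
      · -- a large
        set A : ℕ := ⌈Real.exp r * (1 + δ/2)⌉₊ with hA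
        have hA1 : Real.exp r * (1 + δ/2) ≤ A := Nat.le_ceil _
        have hA2 : (A:ℝ) < Real.exp r * (1 + δ/2) + 1 := Nat.ceil_lt_add_one (by positivity)
        have hAm : A + m ≤ a := by
          have : ((A + m : ℕ) : ℝ) < (a:ℝ) + 1 := by push_cast; linarith
          have : A + m < a + 1 := by exact_mod_cast this
          omega
        have hma : m ≤ a := by omega
        have h3 := up_iter hr hr0 hδ hδ1 (a - m) m (by
          refine hA1.trans ?_
          have : A ≤ a - m := by omega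
          exact_mod_cast this)
        rw [Nat.sub_add_cancel hma] at h3
        simp only [g1, if_pos hma]
        linarith
      · have h3 := low_iter hr hr0 hδ hδ1 a m (by linarith)
        linarith
  have hsum : Summable (fun a => q^m * g1 a + q^m * tt n (a + m)) :=
    (hg1.summable.mul_left _).add (hs2.mul_left _)
  have h4 := (uu_summable n r δ).tsum_le_tsum hpt hsum
  rw [(hg1.summable.mul_left _).tsum_add (hs2.mul_left _), tsum_mul_left, tsum_mul_left, hg1.tsum_eq] at h4
  have hqm : q^m ≤ Real.exp (-(r*δ/3) * (Real.exp r * δ/2 - 1)) := by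
    rw [hq, ← Real.exp_nat_mul]
    apply Real.exp_le_exp.2
    have : 0 ≤ r*δ/3 := by positivity
    nlinarith
  have hT0 : 0 ≤ T := by positivity
  calc ∑' a, uu n r δ a ≤ q^m * T + q^m * ∑' a, tt n (a + m) := h4
    _ ≤ q^m * T + q^m * T := by
        have := mul_le_mul_of_nonneg_left hg2 (show 0 ≤ q^m by positivity)
        linarith
    _ = 2 * q^m * T := by ring
    _ ≤ _ := by
        apply mul_le_mul_of_nonneg_right _ hT0
        linarith

end tail

section win
variable {n : ℕ} {r : ℝ}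

theorem bell_pos (n : ℕ) : 0 < Nat.bell n := by
  have h1 := tt_le_bell n 1
  have h2 : (0:ℝ) < tt n 1 := by unfold tt; simp
  have h3 : (0:ℝ) < Real.exp 1 * (Nat.bell n : ℝ) := lt_of_lt_of_le h2 h1
  have h4 : (0:ℝ) < (Nat.bell n : ℝ) := by
    by_contra h
    push Not at h
    have : Real.exp 1 * (Nat.bell n : ℝ) ≤ 0 := mul_nonpos_of_nonneg_of_nonpos (Real.exp_pos _).le h
    linarith
  exact_mod_cast h4

theorem D_up (hr : r * Real.exp r = n) (hr0 : 0 < r) {δ : ℝ} (hδ : 0 < δ) (hδ1 : δ ≤ 1/2) (hn : 1 ≤ n) :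
    Real.exp 2 * (D n : ℝ) ≤ (Real.exp (-(r^2/2) + (r^2 * δ + r * Real.exp (-r))) + 2 *
      (2 * Real.exp (-(r*δ/3) * (Real.exp r * δ/2 - 1)))) * (Real.exp 1 * (Nat.bell n : ℝ))^2 := by
  set T : ℝ := Real.exp 1 * (Nat.bell n : ℝ) with hT
  set F : ℝ := Real.exp (-(r^2/2) + (r^2 * δ + r * Real.exp (-r))) with hF
  have he : 0 < Real.exp r := Real.exp_pos _
  have he' : 0 < Real.exp (-r) := Real.exp_pos _
  have hee : Real.exp r * Real.exp (-r) = 1 := by rw [← Real.exp_add]; simp
  have hsT : HasSum (tt n) T := hasSum_bell n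
  have hsU : HasSum (uu n r δ) (∑' a, uu n r δ a) := (uu_summable n r δ).hasSum
  set U : ℝ := ∑' a, uu n r δ a with hU
  have hUb : U ≤ 2 * Real.exp (-(r*δ/3) * (Real.exp r * δ/2 - 1)) * T := tail_bound hr hr0 hδ (by linarith)
  have hTT : HasSum (fun x : ℕ × ℕ => tt n x.1 * tt n x.2) (T * T) :=
    hsT.mul hsT (hsT.summable.mul_of_nonneg hsT.summable (fun a => tt_nonneg n a) (fun a => tt_nonneg n a))
  have hUT : HasSum (fun x : ℕ × ℕ => uu n r δ x.1 * tt n x.2) (U * T) :=
    hsU.mul hsT (hsU.summable.mul_of_nonneg hsT.summable (fun a => uu_nonneg n r δ a) (fun a => tt_nonneg n a))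
  have hTU : HasSum (fun x : ℕ × ℕ => tt n x.1 * uu n r δ x.2) (T * U) :=
    hsT.mul hsU (hsT.summable.mul_of_nonneg hsU.summable (fun a => tt_nonneg n a) (fun a => uu_nonneg n r δ a))
  have hR := ((hTT.mul_left F).add hUT).add hTU
  have hle := hasSum_le (fun x => ?_) (hasSum_D n) hR
  · have hT0 : 0 ≤ T := by positivity
    nlinarith [mul_le_mul_of_nonneg_right hUb hT0]
  · obtain ⟨a, b⟩ := x
    simp only
    have hab0 : 0 ≤ tt n a * tt n b := mul_nonneg (tt_nonneg _ _) (tt_nonneg _ _)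
    have h1 : 0 ≤ F * (tt n a * tt n b) := mul_nonneg (Real.exp_pos _).le hab0
    have h2 : 0 ≤ uu n r δ a * tt n b := mul_nonneg (uu_nonneg _ _ _ _) (tt_nonneg _ _)
    have h3 : 0 ≤ tt n a * uu n r δ b := mul_nonneg (tt_nonneg _ _) (uu_nonneg _ _ _ _)
    by_cases ha : |(a:ℝ) - Real.exp r| ≤ Real.exp r * δ
    · by_cases hb : |(b:ℝ) - Real.exp r| ≤ Real.exp r * δ
      · have hw := wt_le n a b
        have hexp : Real.exp (-((n:ℝ) * (n - 1) / (2 * ((a:ℝ) * b)))) ≤ F := by
          rw [hF]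
          apply Real.exp_le_exp.2
          rw [abs_le] at ha hb
          have a1 : (0:ℝ) < a := by nlinarith
          have b1 : (0:ℝ) < b := by nlinarith
          have a2 : (a:ℝ) ≤ Real.exp r * (1 + δ) := by linarith
          have b2 : (b:ℝ) ≤ Real.exp r * (1 + δ) := by linarith
          have ab : (a:ℝ) * b ≤ (Real.exp r * (1 + δ))^2 := by
            rw [sq]; exact mul_le_mul a2 b2 b1.le (by positivity)
          have hn1 : (1:ℝ) ≤ n := by exact_mod_cast hn
          have hnn : 0 ≤ (n:ℝ) * (n - 1) := mul_nonneg (by linarith) (by linarith)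
          have c1 : (n:ℝ) * (n - 1) / (2 * (Real.exp r * (1 + δ))^2) ≤ (n:ℝ) * (n - 1) / (2 * ((a:ℝ) * b)) := by
            apply div_le_div_of_nonneg_left hnn (by positivity)
            linarith
          have c2 : (n:ℝ) * (n - 1) / (2 * (Real.exp r * (1 + δ))^2) = (r^2 - r * Real.exp (-r)) / (2 * (1+δ)^2) := by
            rw [← hr]
            rw [div_eq_div_iff (by positivity) (by positivity)]
            linear_combination 2 * r * Real.exp r * (1+δ)^2 * hee
          have c3 : r^2/2 - (r^2 * δ + r * Real.exp (-r)) ≤ (r^2 - r * Real.exp (-r)) / (2 * (1+δ)^2) := by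
            rw [le_div_iff₀ (by positivity)]
            have d1 : 0 ≤ r * Real.exp (-r) := by positivity
            nlinarith [mul_nonneg (sq_nonneg r) hδ.le, mul_nonneg (sq_nonneg r) (pow_nonneg hδ.le 2),
              mul_nonneg (sq_nonneg r) (pow_nonneg hδ.le 3), mul_nonneg d1 hδ.le, mul_nonneg d1 (pow_nonneg hδ.le 2)]
          linarith [c1, c2.symm.le, c3]
        calc wt n (a, b) ≤ _ := hw
          _ ≤ F * (tt n a * tt n b) := mul_le_mul_of_nonneg_right hexp hab0
          _ ≤ _ := by linarith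
      · have : uu n r δ b = tt n b := by unfold uu; rw [if_neg hb]
        rw [this] at h3 ⊢
        linarith [wt_le' n a b]
    · have : uu n r δ a = tt n a := by unfold uu; rw [if_neg ha]
      rw [this] at h2 ⊢
      linarith [wt_le' n a b]

theorem D_low (hr : r * Real.exp r = n) (hr0 : 0 < r) {δ : ℝ} (hδ : 0 < δ) (hδ1 : δ ≤ 1/4)
    (h4r : 4 * r ≤ Real.exp r) (hk : 2 * Real.exp (-(r*δ/3) * (Real.exp r * δ/2 - 1)) ≤ 1) :
    (Real.exp (-(r^2/2) - (2 * r^2 * δ + 4 * r^3 * Real.exp (-r))) *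
      (1 - 2 * Real.exp (-(r*δ/3) * (Real.exp r * δ/2 - 1)))^2) * (Real.exp 1 * (Nat.bell n : ℝ))^2 ≤
      Real.exp 2 * (D n : ℝ) := by
  set T : ℝ := Real.exp 1 * (Nat.bell n : ℝ) with hT
  set F : ℝ := Real.exp (-(r^2/2) - (2 * r^2 * δ + 4 * r^3 * Real.exp (-r))) with hF
  have he : 0 < Real.exp r := Real.exp_pos _
  have he' : 0 < Real.exp (-r) := Real.exp_pos _
  have hee : Real.exp r * Real.exp (-r) = 1 := by rw [← Real.exp_add]; simp
  have hsT : HasSum (tt n) T := hasSum_bell n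
  have hsU : HasSum (uu n r δ) (∑' a, uu n r δ a) := (uu_summable n r δ).hasSum
  set U : ℝ := ∑' a, uu n r δ a with hU
  have hUb : U ≤ 2 * Real.exp (-(r*δ/3) * (Real.exp r * δ/2 - 1)) * T := tail_bound hr hr0 hδ (by linarith)
  have hsV : HasSum (fun a => tt n a - uu n r δ a) (T - U) := hsT.sub hsU
  have hV0 : ∀ a, 0 ≤ tt n a - uu n r δ a := fun a => sub_nonneg.2 (uu_le n r δ a)
  have hVV : HasSum (fun x : ℕ × ℕ => (tt n x.1 - uu n r δ x.1) * (tt n x.2 - uu n r δ x.2)) ((T - U) * (T - U)) :=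
    hsV.mul hsV (hsV.summable.mul_of_nonneg hsV.summable (fun a => hV0 a) (fun a => hV0 a))
  have hle := hasSum_le (fun x => ?_) (hVV.mul_left F) (hasSum_D n)
  · refine le_trans ?_ hle
    have hT0 : 0 ≤ T := by positivity
    have hF0 : 0 ≤ F := (Real.exp_pos _).le
    rw [mul_assoc]
    apply mul_le_mul_of_nonneg_left _ hF0
    rw [← mul_pow, ← sq]
    apply pow_le_pow_left₀
    · exact mul_nonneg (by linarith) hT0
    · linarith
  · obtain ⟨a, b⟩ := x
    simp only
    by_cases ha : |(a:ℝ) - Real.exp r| ≤ Real.exp r * δ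
    · by_cases hb : |(b:ℝ) - Real.exp r| ≤ Real.exp r * δ
      · have hua : uu n r δ a = 0 := by unfold uu; rw [if_pos ha]
        have hub : uu n r δ b = 0 := by unfold uu; rw [if_pos hb]
        rw [hua, hub, sub_zero, sub_zero]
        rw [abs_le] at ha hb
        have a1 : Real.exp r * (1 - δ) ≤ (a:ℝ) := by linarith
        have b1 : Real.exp r * (1 - δ) ≤ (b:ℝ) := by linarith
        have hd0 : (0:ℝ) < 1 - δ := by linarith
        have ab : (Real.exp r * (1 - δ))^2 ≤ (a:ℝ) * b := by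
          rw [sq]; exact mul_le_mul a1 b1 (by positivity) (by positivity)
        have hs0 : 0 < (Real.exp r * (1 - δ))^2 := by positivity
        have hab2 : 2 * n ≤ a * b := by
          have : 2 * (n:ℝ) ≤ (a:ℝ) * b := by
            refine le_trans ?_ ab
            rw [← hr]
            have h34 : (3/4:ℝ) ≤ 1 - δ := by linarith
            have h9 : (9/16:ℝ) ≤ (1-δ)^2 := by
              calc (9/16:ℝ) = (3/4)^2 := by norm_num
                _ ≤ _ := pow_le_pow_left₀ (by norm_num) h34 2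
            have h5 : 4 * r * Real.exp r ≤ (Real.exp r)^2 := by
              rw [sq]; exact mul_le_mul_of_nonneg_right h4r he.le
            have h6 : 0 < r * Real.exp r := mul_pos hr0 he
            calc 2 * (r * Real.exp r) ≤ (4 * r * Real.exp r) * (9/16) := by linarith
              _ ≤ (Real.exp r)^2 * (1-δ)^2 := mul_le_mul h5 h9 (by norm_num) (by positivity)
              _ = _ := by ring
          exact_mod_cast this
        have hw := le_wt n a b hab2
        refine le_trans ?_ hw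
        have hab0 : 0 ≤ tt n a * tt n b := mul_nonneg (tt_nonneg _ _) (tt_nonneg _ _)
        apply mul_le_mul_of_nonneg_right _ hab0
        rw [hF]
        apply Real.exp_le_exp.2
        have habpos : (0:ℝ) < (a:ℝ) * b := lt_of_lt_of_le hs0 ab
        have c1 : (n:ℝ)^2 / (2 * ((a:ℝ) * b)) ≤ (n:ℝ)^2 / (2 * (Real.exp r * (1 - δ))^2) := by
          apply div_le_div_of_nonneg_left (by positivity) (by positivity)
          linarith
        have c2 : (n:ℝ)^3 / ((a:ℝ) * b)^2 ≤ (n:ℝ)^3 / ((Real.exp r * (1 - δ))^2)^2 := by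
          apply div_le_div_of_nonneg_left (by positivity) (by positivity)
          exact pow_le_pow_left₀ hs0.le ab 2
        have c3 : (n:ℝ)^2 / (2 * (Real.exp r * (1 - δ))^2) = r^2 / (2 * (1-δ)^2) := by
          rw [← hr]
          field_simp
        have c4 : (n:ℝ)^3 / ((Real.exp r * (1 - δ))^2)^2 = r^3 * Real.exp (-r) / (1-δ)^4 := by
          rw [← hr, Real.exp_neg]
          field_simp
        have c5 : r^2 / (2 * (1-δ)^2) ≤ r^2/2 + 2 * r^2 * δ := by
          rw [div_le_iff₀ (by positivity)]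
          have : 1 ≤ (1 + 4 * δ) * (1-δ)^2 := by nlinarith [mul_nonneg hδ.le (sub_nonneg.2 hδ1), pow_pos hδ 3]
          nlinarith [mul_le_mul_of_nonneg_left this (sq_nonneg r)]
        have c6 : r^3 * Real.exp (-r) / (1-δ)^4 ≤ 4 * r^3 * Real.exp (-r) := by
          rw [div_le_iff₀ (by positivity)]
          have h6 : (81/256:ℝ) ≤ (1-δ)^4 := by
            have : (3/4:ℝ) ≤ 1 - δ := by linarith
            calc (81/256:ℝ) = (3/4)^4 := by norm_num
              _ ≤ _ := pow_le_pow_left₀ (by norm_num) this 4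
          have h7 : 0 ≤ r^3 * Real.exp (-r) := by positivity
          nlinarith [mul_le_mul_of_nonneg_left h6 h7]
        linarith
      · have : uu n r δ b = tt n b := by unfold uu; rw [if_neg hb]
        rw [this, sub_self, mul_zero, mul_zero]
        exact wt_nonneg _ _
    · have : uu n r δ a = tt n a := by unfold uu; rw [if_neg ha]
      rw [this, sub_self, zero_mul, mul_zero]
      exact wt_nonneg _ _

end win

noncomputable def kap (x : ℝ) : ℝ :=
  Real.exp (-(x * Real.exp (-(x/4))/3) * (Real.exp x * Real.exp (-(x/4))/2 - 1))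

theorem kap_bound (x : ℝ) (hx : 48 ≤ x) : kap x * Real.exp (x^2/2) ≤ Real.exp (-x) := by
  unfold kap
  rw [← Real.exp_add]
  apply Real.exp_le_exp.2
  have h1 : Real.exp (-(x/4)) * (Real.exp x * Real.exp (-(x/4))) = Real.exp (x/2) := by
    rw [← Real.exp_add, ← Real.exp_add]; congr 1; ring
  have h2 : Real.exp (-(x/4)) ≤ 1 := by
    rw [Real.exp_le_one_iff]; linarith
  have h3 : 1 + x/2 + (x/2)^2/2 ≤ Real.exp (x/2) := Real.quadratic_le_exp_of_nonneg (by linarith)
  have h4 : -(x * Real.exp (-(x/4))/3) * (Real.exp x * Real.exp (-(x/4))/2 - 1) =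
      -(x/6) * Real.exp (x/2) + x/3 * Real.exp (-(x/4)) := by
    rw [← h1]; ring
  rw [h4]
  have h5 : x/3 * Real.exp (-(x/4)) ≤ x/3 := by nlinarith
  have h6 : -(x/6) * Real.exp (x/2) ≤ -(x/6) * (x^2/8) := by
    have : x^2/8 ≤ Real.exp (x/2) := by nlinarith
    nlinarith
  have h7 : -(x/6) * (x^2/8) ≤ -x^2 := by nlinarith [sq_nonneg x]
  nlinarith

theorem kap_pos (x : ℝ) : 0 < kap x := Real.exp_pos _

theorem kap_mul_tendsto : Tendsto (fun x : ℝ => kap x * Real.exp (x^2/2)) atTop (𝓝 0) := by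
  refine squeeze_zero' (Eventually.of_forall fun x => (mul_pos (kap_pos x) (Real.exp_pos _)).le) ?_
    (Real.tendsto_exp_neg_atTop_nhds_zero)
  filter_upwards [eventually_ge_atTop (48:ℝ)] with x hx
  exact kap_bound x hx

theorem kap_tendsto : Tendsto kap atTop (𝓝 0) := by
  refine squeeze_zero' (Eventually.of_forall fun x => (kap_pos x).le) ?_ kap_mul_tendsto
  filter_upwards with x
  have : 1 ≤ Real.exp (x^2/2) := Real.one_le_exp (by positivity)
  nlinarith [kap_pos x]

theorem sq_delta_tendsto : Tendsto (fun x : ℝ => x^2 * Real.exp (-(x/4))) atTop (𝓝 0) := by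
  have h1 := Real.tendsto_pow_mul_exp_neg_atTop_nhds_zero 2
  have h2 : Tendsto (fun x : ℝ => x/4) atTop atTop := tendsto_id.atTop_div_const (by norm_num)
  have h3 := (h1.comp h2).const_mul 16
  rw [mul_zero] at h3
  refine h3.congr (fun x => ?_)
  simp only [Function.comp]
  ring

theorem G1_tendsto : Tendsto (fun x : ℝ => Real.exp (x^2 * Real.exp (-(x/4)) + x * Real.exp (-x)) +
    4 * (kap x * Real.exp (x^2/2))) atTop (𝓝 1) := by
  have h1 : Tendsto (fun x : ℝ => x * Real.exp (-x)) atTop (𝓝 0) := by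
    have := Real.tendsto_pow_mul_exp_neg_atTop_nhds_zero 1
    simpa using this
  have h2 := (Real.continuous_exp.tendsto 0).comp (by simpa using sq_delta_tendsto.add h1)
  rw [Real.exp_zero] at h2
  have h3 := h2.add (kap_mul_tendsto.const_mul 4)
  rw [mul_zero, add_zero] at h3
  exact h3

theorem G2_tendsto : Tendsto (fun x : ℝ => Real.exp (-(2 * x^2 * Real.exp (-(x/4)) + 4 * x^3 * Real.exp (-x))) *
    (1 - 2 * kap x)^2) atTop (𝓝 1) := by
  have h1 := (Real.tendsto_pow_mul_exp_neg_atTop_nhds_zero 3).const_mul 4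
  have h0 := ((sq_delta_tendsto.const_mul 2).add h1).neg
  have h0' : Tendsto (fun x : ℝ => -(2 * x^2 * Real.exp (-(x/4)) + 4 * x^3 * Real.exp (-x))) atTop (𝓝 0) := by
    simp only [mul_zero, add_zero, neg_zero] at h0
    refine h0.congr (fun x => ?_)
    ring
  have h2 := (Real.continuous_exp.tendsto 0).comp h0'
  rw [Real.exp_zero] at h2
  have h4 : Tendsto (fun x : ℝ => (1 - 2 * kap x)^2) atTop (𝓝 1) := by
    have := ((kap_tendsto.const_mul 2).const_sub 1).pow 2
    simpa using this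
  have h3 := h2.mul h4
  rw [mul_one] at h3
  exact h3

theorem r_tendsto (r : ℕ → ℝ) (hr : ∀ n : ℕ, 0 ≤ r n ∧ r n * Real.exp (r n) = n) : Tendsto r atTop atTop := by
  rw [tendsto_atTop]
  intro K
  set K' := max K 0
  have hK : K ≤ K' := le_max_left _ _
  have hK0 : 0 ≤ K' := le_max_right _ _
  have h := tendsto_natCast_atTop_atTop (R := ℝ) |>.eventually_gt_atTop (K' * Real.exp K')
  filter_upwards [h] with n hn
  by_contra hlt
  push Not at hlt
  have h1 : r n ≤ K' := by linarith
  have h2 : r n * Real.exp (r n) ≤ K' * Real.exp K' :=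
    mul_le_mul h1 (Real.exp_le_exp.2 h1) (Real.exp_pos _).le hK0
  rw [(hr n).2] at h2
  linarith

theorem D_asymp (r : ℕ → ℝ) (hr : ∀ n : ℕ, 0 ≤ r n ∧ r n * Real.exp (r n) = n) :
    Tendsto (fun n : ℕ => (D n : ℝ) / ((Nat.bell n : ℝ)^2 * Real.exp (-((r n)^2/2)))) atTop (𝓝 1) := by
  have hrt := r_tendsto r hr
  have hup := G1_tendsto.comp hrt
  have hlo := G2_tendsto.comp hrt
  have hexp4 : ∀ᶠ x : ℝ in atTop, 4 * x ≤ Real.exp x := by
    filter_upwards [eventually_ge_atTop (8:ℝ)] with x hx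
    have := Real.quadratic_le_exp_of_nonneg (x := x) (by linarith)
    nlinarith
  have hdel : ∀ᶠ x : ℝ in atTop, Real.exp (-(x/4)) ≤ 1/4 := by
    have h2 : Tendsto (fun x : ℝ => x/4) atTop atTop := tendsto_id.atTop_div_const (by norm_num)
    have h3 := Real.tendsto_exp_neg_atTop_nhds_zero.comp h2
    exact h3.eventually_le_const (by norm_num)
  have hkap : ∀ᶠ x : ℝ in atTop, 2 * kap x ≤ 1 := by
    have := kap_tendsto.eventually_le_const (show (0:ℝ) < 1/2 by norm_num)
    filter_upwards [this] with x hx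
    linarith
  have hT : ∀ n : ℕ, (Real.exp 1 * (Nat.bell n : ℝ))^2 = Real.exp 2 * (Nat.bell n : ℝ)^2 := by
    intro n
    rw [mul_pow, ← Real.exp_nat_mul]
    norm_num
  refine tendsto_of_tendsto_of_tendsto_of_le_of_le' hlo hup ?_ ?_
  · filter_upwards [hrt.eventually hexp4, hrt.eventually hdel, hrt.eventually hkap, hrt.eventually_gt_atTop 0] with n h1 h2 h3 h4
    have hmain := D_low (hr n).2 h4 (Real.exp_pos (-(r n/4))) h2 h1 h3
    simp only [Function.comp]
    have hb : (0:ℝ) < (Nat.bell n : ℝ) := by exact_mod_cast bell_pos n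
    rw [le_div_iff₀ (by positivity)]
    rw [hT] at hmain
    have he2 : (0:ℝ) < Real.exp 2 := Real.exp_pos _
    have e1 : Real.exp (-((r n)^2/2) - (2 * (r n)^2 * Real.exp (-(r n/4)) + 4 * (r n)^3 * Real.exp (-(r n)))) =
        Real.exp (-(2 * (r n)^2 * Real.exp (-(r n/4)) + 4 * (r n)^3 * Real.exp (-(r n)))) * Real.exp (-((r n)^2/2)) := by
      rw [← Real.exp_add]; congr 1; ring
    rw [e1] at hmain
    change Real.exp (-(2 * (r n)^2 * Real.exp (-(r n/4)) + 4 * (r n)^3 * Real.exp (-(r n)))) * Real.exp (-((r n)^2/2)) *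
      (1 - 2 * kap (r n))^2 * (Real.exp 2 * (Nat.bell n : ℝ)^2) ≤ Real.exp 2 * (D n : ℝ) at hmain
    apply le_of_mul_le_mul_left _ he2
    refine le_trans (le_of_eq ?_) hmain
    ring
  · filter_upwards [hrt.eventually hdel, hrt.eventually_gt_atTop 0, eventually_ge_atTop 1] with n h2 h4 hn
    have hmain := D_up (hr n).2 h4 (Real.exp_pos (-(r n/4))) (by linarith) hn
    simp only [Function.comp]
    have hb : (0:ℝ) < (Nat.bell n : ℝ) := by exact_mod_cast bell_pos n
    rw [div_le_iff₀ (by positivity)]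
    rw [hT] at hmain
    have he2 : (0:ℝ) < Real.exp 2 := Real.exp_pos _
    have e1 : Real.exp (-((r n)^2/2) + ((r n)^2 * Real.exp (-(r n/4)) + r n * Real.exp (-(r n)))) =
        Real.exp ((r n)^2 * Real.exp (-(r n/4)) + r n * Real.exp (-(r n))) * Real.exp (-((r n)^2/2)) := by
      rw [← Real.exp_add]; congr 1; ring
    rw [e1] at hmain
    change Real.exp 2 * (D n : ℝ) ≤ (Real.exp ((r n)^2 * Real.exp (-(r n/4)) + r n * Real.exp (-(r n))) * Real.exp (-((r n)^2/2)) +
      2 * (2 * kap (r n))) * (Real.exp 2 * (Nat.bell n : ℝ)^2) at hmain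
    apply le_of_mul_le_mul_left _ he2
    refine le_trans hmain (le_of_eq ?_)
    have e3 : Real.exp ((r n)^2/2) * Real.exp (-((r n)^2/2)) = 1 := by rw [← Real.exp_add]; simp
    linear_combination (-4) * kap (r n) * Real.exp 2 * (Nat.bell n : ℝ)^2 * e3

theorem lambertW_spec (x : ℝ) (hx : 0 ≤ x) : 0 ≤ lambertW x ∧ lambertW x * Real.exp (lambertW x) = x := by
  have hcont : ContinuousOn (fun t : ℝ => t * Real.exp t) (Set.Icc 0 x) := by fun_prop
  have hiv := intermediate_value_Icc hx hcont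
  have hmem : x ∈ Set.Icc ((0:ℝ) * Real.exp 0) (x * Real.exp x) := by
    constructor
    · simpa using hx
    · have : 1 ≤ Real.exp x := Real.one_le_exp hx
      nlinarith
  obtain ⟨r, ⟨hr0, _⟩, hr⟩ := hiv hmem
  simp only at hr
  have hset : {t : ℝ | 0 ≤ t ∧ t * Real.exp t ≤ x} = Set.Icc 0 r := by
    ext t
    simp only [Set.mem_ofPred_eq, Set.mem_Icc]
    constructor
    · rintro ⟨h1, h2⟩
      refine ⟨h1, ?_⟩
      by_contra h
      push Not at h
      have h3 : r * Real.exp r ≤ r * Real.exp t := mul_le_mul_of_nonneg_left (Real.exp_le_exp.2 h.le) hr0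
      have h4 : r * Real.exp t < t * Real.exp t := mul_lt_mul_of_pos_right h (Real.exp_pos _)
      linarith
    · rintro ⟨h1, h2⟩
      refine ⟨h1, ?_⟩
      rw [← hr]
      exact mul_le_mul h2 (Real.exp_le_exp.2 h2) (Real.exp_pos _).le hr0
  have : lambertW x = r := by
    unfold lambertW
    rw [hset, csSup_Icc hr0]
  rw [this]
  exact ⟨hr0, hr⟩

theorem orbit_asymp {Ω : Type*} [Infinite Ω] (r : ℕ → ℝ) (hr : ∀ n : ℕ, 0 ≤ r n ∧ r n * Real.exp (r n) = n) :
    Tendsto (fun n : ℕ => (orbitCount (wreathS2 Ω) n : ℝ) /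
      ((Nat.bell n : ℝ)^2 * Real.exp (-((r n)^2/2)) / (2 * (n.factorial : ℝ)))) atTop (𝓝 1) := by
  have h1 := D_asymp r hr
  have h2 : Tendsto (fun n : ℕ => 1 + (Rn n : ℝ) / (D n : ℝ) + (Sn n : ℝ) / (D n : ℝ)) atTop (𝓝 1) := by
    have := (Rn_small.const_add 1).add Sn_small
    simpa using this
  have h3 := h2.mul h1
  rw [one_mul] at h3
  refine h3.congr' ?_
  filter_upwards [D_pos'] with n hD
  have hc : (orbitCount (wreathS2 Ω) n : ℝ) * (2 * (n.factorial : ℝ)) = (D n : ℝ) + (Rn n : ℝ) + (Sn n : ℝ) := by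
    exact_mod_cast main_count (Ω := Ω) n
  have hf : (0:ℝ) < 2 * (n.factorial : ℝ) := by positivity
  have hb : (0:ℝ) < (Nat.bell n : ℝ)^2 * Real.exp (-((r n)^2/2)) := by
    have : (0:ℝ) < (Nat.bell n : ℝ) := by exact_mod_cast bell_pos n
    positivity
  rw [div_div_eq_mul_div, hc]
  field_simp

/-- The number of orbits on n-sets of S Wr S_2 in the product action is asymptotically equal to
(Bell n)^2 * exp (-W(n)^2 / 2) / (2 * n!), where W(n) * exp (W(n)) = n. -/
theorem result {Ω : Type*} [Infinite Ω] :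
    (∀ n : ℕ, 0 ≤ lambertW n ∧ lambertW n * Real.exp (lambertW n) = n) ∧
    Tendsto (fun n : ℕ => (orbitCount (wreathS2 Ω) n : ℝ) /
      ((Nat.bell n : ℝ)^2 * Real.exp (-((lambertW n)^2/2)) / (2 * (n.factorial : ℝ)))) atTop (𝓝 1) :=
  ⟨fun n => lambertW_spec n (Nat.cast_nonneg n),
    orbit_asymp (fun n => lambertW n) (fun n => lambertW_spec n (Nat.cast_nonneg n))⟩

end Pool.Agent.Results.MP_cfcaf3_co.WreathOrbitAsymptotics
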